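import Pool.Agent.StabM.Order

set_option autoImplicit false

open Finset

namespace Pool.Agent.StabM

/-- `log (k+1) - log k` -/
noncomputable def gl (k : ℕ) : ℝ := Real.log ((k : ℝ) + 1) - Real.log (k : ℝ)

/-- second difference -/
noncomputable def dl (k : ℕ) : ℝ := gl (k + 1) - gl (k + 2)

lemma sum_gl (a : ℕ) : ∑ i ∈ range a, gl (i + 1) = Real.log ((a : ℝ) + 1) := by
  induction a with
  | zero => simp
  | succ a ih =>
    rw [Finset.sum_range_succ, ih]
    unfold gl
    push_cast
    ring

lemma sum_dl (i b : ℕ) : ∑ j ∈ range b, dl (i + j) = gl (i + 1) - gl (i + b + 1) := by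
  induction b with
  | zero => simp
  | succ b ih =>
    rw [Finset.sum_range_succ, ih]
    unfold dl
    have h1 : i + b + 2 = i + (b + 1) + 1 := by ring
    rw [h1]
    ring

lemma sum_gl_shift (a b : ℕ) : ∑ i ∈ range a, gl (i + b + 1) =
    Real.log ((a : ℝ) + b + 1) - Real.log ((b : ℝ) + 1) := by
  induction a with
  | zero => simp
  | succ a ih =>
    rw [Finset.sum_range_succ, ih]
    unfold gl
    push_cast
    have h1 : (a : ℝ) + 1 + b + 1 = a + b + 1 + 1 := by ring
    rw [h1]
    ring

lemma log_expand (a b : ℕ) : Real.log (1 + (a : ℝ) + b) =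
    ∑ i ∈ range a, gl (i + 1) + ∑ j ∈ range b, gl (j + 1)
      - ∑ i ∈ range a, ∑ j ∈ range b, dl (i + j) := by
  have h1 : ∑ i ∈ range a, ∑ j ∈ range b, dl (i + j) =
      Real.log ((a : ℝ) + 1) - (Real.log ((a : ℝ) + b + 1) - Real.log ((b : ℝ) + 1)) := by
    rw [← sum_gl a, ← sum_gl_shift a b, ← Finset.sum_sub_distrib]
    refine Finset.sum_congr rfl ?_
    intro i _
    exact sum_dl i b
  rw [h1, sum_gl, sum_gl]
  have : 1 + (a : ℝ) + b = a + b + 1 := by ring
  rw [this]
  ring

/-- a downward closed condition on an initial segment -/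
lemma filter_range (p : ℕ) (P : ℕ → Prop) [DecidablePred P] (hP : ∀ i, P (i + 1) → P i) :
    (range p).filter P = range ((range p).filter P).card := by
  have hP2 : ∀ i j, i ≤ j → P j → P i := by
    intro i j hij
    induction hij with
    | refl => exact id
    | step _ ih => exact fun h => ih (hP _ h)
  induction p with
  | zero => simp
  | succ p ih =>
    by_cases h : P p
    · have : (range (p + 1)).filter P = range (p + 1) := by
        rw [Finset.filter_eq_self]
        intro i hi
        exact hP2 i p (Nat.lt_succ_iff.mp (Finset.mem_range.mp hi)) h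
      rw [this, Finset.card_range]
    · have : (range (p + 1)).filter P = (range p).filter P := by
        rw [Finset.range_add_one, Finset.filter_insert, if_neg h]
      rw [this]
      exact ih

/-- length of the run of unrevealed blocking sets -/
noncomputable def run {n : ℕ} (m : Fin n) (p : ℕ) (U : ℕ → Finset (Fin n))
    (π : Equiv.Perm (Fin n)) : ℕ :=
  ((range p).filter (fun i => π ∈ first m (U i))).card

lemma sum_run {n : ℕ} (m : Fin n) (p : ℕ) (U : ℕ → Finset (Fin n))
    (hU : ∀ i, U i ⊆ U (i + 1)) (π : Equiv.Perm (Fin n)) (F : ℕ → ℝ) :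
    ∑ i ∈ range (run m p U π), F i = ∑ i ∈ range p, if π ∈ first m (U i) then F i else 0 := by
  rw [← Finset.sum_filter]
  congr 1
  unfold run
  rw [← filter_range p (fun i => π ∈ first m (U i))]
  intro i hi
  rw [mem_first] at hi ⊢
  exact fun x hx => hi x (hU i hx)

/-- expected value of the logarithm of the number of options -/
noncomputable def costF (p q : ℕ) (u w : ℕ → ℕ) (x : ℕ → ℕ → ℕ) : ℝ :=
  ∑ i ∈ range p, gl (i + 1) / ((u i : ℝ) + 1) + ∑ j ∈ range q, gl (j + 1) / ((w j : ℝ) + 1)
    - ∑ i ∈ range p, ∑ j ∈ range q, dl (i + j) / ((x i j : ℝ) + 1)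

lemma first_inter {n : ℕ} (m : Fin n) (A B : Finset (Fin n)) (π : Equiv.Perm (Fin n)) :
    (π ∈ first m A ∧ π ∈ first m B) ↔ π ∈ first m (A ∪ B) := by
  simp only [mem_first, Finset.mem_union]
  constructor
  · rintro ⟨h1, h2⟩ x (hx | hx)
    · exact h1 x hx
    · exact h2 x hx
  · intro h
    exact ⟨fun x hx => h x (Or.inl hx), fun x hx => h x (Or.inr hx)⟩

theorem sum_log_run {n : ℕ} (m : Fin n) (p q : ℕ) (U W : ℕ → Finset (Fin n))
    (hU : ∀ i, U i ⊆ U (i + 1)) (hW : ∀ i, W i ⊆ W (i + 1))
    (hmU : ∀ i < p, m ∉ U i) (hmW : ∀ j < q, m ∉ W j) :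
    ∑ π : Equiv.Perm (Fin n), Real.log (1 + (run m p U π : ℝ) + run m q W π) =
      (Nat.factorial n : ℝ) * costF p q (fun i => (U i).card) (fun j => (W j).card)
        (fun i j => (U i ∪ W j).card) := by
  classical
  have hind : ∀ (A : Finset (Fin n)) (c : ℝ), m ∉ A →
      ∑ π : Equiv.Perm (Fin n), (if π ∈ first m A then c else 0) =
        (Nat.factorial n : ℝ) * (c / ((A.card : ℝ) + 1)) := by
    intro A c hA
    rw [← Finset.sum_filter]
    have : (Finset.univ.filter (fun π => π ∈ first m A)) = first m A := by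
      ext π; simp
    rw [this, Finset.sum_const, nsmul_eq_mul, card_first_real m A hA]
    ring
  have h1 : ∀ π : Equiv.Perm (Fin n), Real.log (1 + (run m p U π : ℝ) + run m q W π) =
      ∑ i ∈ range p, (if π ∈ first m (U i) then gl (i + 1) else 0)
      + ∑ j ∈ range q, (if π ∈ first m (W j) then gl (j + 1) else 0)
      - ∑ i ∈ range p, ∑ j ∈ range q, (if π ∈ first m (U i ∪ W j) then dl (i + j) else 0) := by
    intro π
    rw [log_expand, sum_run m p U hU π, sum_run m q W hW π, sum_run m p U hU π]
    congr 1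
    refine Finset.sum_congr rfl ?_
    intro i _
    by_cases hi : π ∈ first m (U i)
    · rw [if_pos hi, sum_run m q W hW π]
      refine Finset.sum_congr rfl ?_
      intro j _
      by_cases hj : π ∈ first m (W j)
      · rw [if_pos hj, if_pos ((first_inter m _ _ π).mp ⟨hi, hj⟩)]
      · rw [if_neg hj, if_neg]
        intro h
        exact hj ((first_inter m _ _ π).mpr h).2
    · rw [if_neg hi]
      symm
      refine Finset.sum_eq_zero ?_
      intro j _
      rw [if_neg]
      intro h
      exact hi ((first_inter m _ _ π).mpr h).1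
  rw [Finset.sum_congr rfl (fun π _ => h1 π), Finset.sum_sub_distrib, Finset.sum_add_distrib]
  rw [Finset.sum_comm, Finset.sum_comm (s := Finset.univ) (t := range q)]
  rw [Finset.sum_comm (s := Finset.univ) (t := range p)]
  unfold costF
  rw [mul_sub, mul_add, Finset.mul_sum, Finset.mul_sum, Finset.mul_sum]
  congr 1
  · congr 1
    · refine Finset.sum_congr rfl ?_
      intro i hi
      exact hind _ _ (hmU i (Finset.mem_range.mp hi))
    · refine Finset.sum_congr rfl ?_
      intro i hi
      exact hind _ _ (hmW i (Finset.mem_range.mp hi))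
  · refine Finset.sum_congr rfl ?_
    intro i hi
    rw [Finset.sum_comm, Finset.mul_sum]
    refine Finset.sum_congr rfl ?_
    intro j hj
    refine hind _ _ ?_
    rw [Finset.mem_union, not_or]
    exact ⟨hmU i (Finset.mem_range.mp hi), hmW j (Finset.mem_range.mp hj)⟩

end Pool.Agent.StabM
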