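import Pool.Agent.StabM.Gl

set_option autoImplicit false

open Finset

namespace Pool.Agent.StabM

/-- cost with sizes `a i + b j` for the unions -/
noncomputable def cc (p q : ℕ) (a b : ℕ → ℕ) : ℝ := costF p q a b (fun i j => a i + b j)

lemma costF_le_cc (p q : ℕ) (u w : ℕ → ℕ) (x : ℕ → ℕ → ℕ) (hx : ∀ i j, x i j ≤ u i + w j) :
    costF p q u w x ≤ cc p q u w := by
  unfold cc costF
  apply sub_le_sub_left
  refine Finset.sum_le_sum (fun i _ => Finset.sum_le_sum (fun j _ => ?_))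
  apply div_le_div_of_nonneg_left (dl_nonneg _) (by positivity)
  have : (x i j : ℝ) ≤ ((u i + w j : ℕ) : ℝ) := by exact_mod_cast hx i j
  linarith

lemma cc_symm (p q : ℕ) (a b : ℕ → ℕ) : cc p q a b = cc q p b a := by
  unfold cc costF
  rw [Finset.sum_comm, add_comm (∑ i ∈ range p, gl (i + 1) / ((a i : ℝ) + 1))]
  congr 1
  refine Finset.sum_congr rfl (fun i _ => Finset.sum_congr rfl (fun j _ => ?_))
  simp only
  rw [add_comm i j, add_comm (a j) (b i)]

lemma cc_eq (p q : ℕ) (a b : ℕ → ℕ) : cc p q a b =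
    ∑ i ∈ range p, (gl (i + 1) / ((a i : ℝ) + 1) -
      ∑ j ∈ range q, dl (i + j) / ((a i : ℝ) + b j + 1)) +
      ∑ j ∈ range q, gl (j + 1) / ((b j : ℝ) + 1) := by
  unfold cc costF
  rw [Finset.sum_sub_distrib]
  have : ∀ i j : ℕ, ((a i + b j : ℕ) : ℝ) = (a i : ℝ) + b j := fun i j => by push_cast; ring
  simp only [this]
  ring

lemma frac_diff {s t w : ℝ} (hs : 0 ≤ s) (hst : s ≤ t) (hw : 0 ≤ w) :
    1 / (s + w + 1) - 1 / (t + w + 1) ≤ 1 / (s + 1) - 1 / (t + 1) := by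
  have ht : 0 ≤ t := hs.trans hst
  have e1 : 1 / (s + w + 1) - 1 / (t + w + 1) = (t - s) / ((s + w + 1) * (t + w + 1)) := by
    field_simp
    ring
  have e2 : 1 / (s + 1) - 1 / (t + 1) = (t - s) / ((s + 1) * (t + 1)) := by
    field_simp
    ring
  rw [e1, e2]
  apply div_le_div_of_nonneg_left (by linarith) (by positivity)
  apply mul_le_mul <;> nlinarith

lemma sum_dl_le (i q : ℕ) : ∑ j ∈ range q, dl (i + j) ≤ gl (i + 1) := by
  rw [sum_dl]
  have := gl_nonneg (i + q + 1)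
  linarith

lemma cc_anti_left (p q : ℕ) (u w a : ℕ → ℕ) (ha : ∀ i < p, a i ≤ u i) :
    cc p q u w ≤ cc p q a w := by
  rw [cc_eq, cc_eq]
  apply add_le_add_left
  refine Finset.sum_le_sum (fun i hi => ?_)
  rw [Finset.mem_range] at hi
  have hai : (a i : ℝ) ≤ u i := by exact_mod_cast ha i hi
  have h0 : (0 : ℝ) ≤ a i := Nat.cast_nonneg _
  have h1 : ∑ j ∈ range q, dl (i + j) / ((a i : ℝ) + w j + 1) -
      ∑ j ∈ range q, dl (i + j) / ((u i : ℝ) + w j + 1) ≤
      (∑ j ∈ range q, dl (i + j)) * (1 / ((a i : ℝ) + 1) - 1 / ((u i : ℝ) + 1)) := by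
    rw [← Finset.sum_sub_distrib, Finset.sum_mul]
    refine Finset.sum_le_sum (fun j _ => ?_)
    have h2 := frac_diff h0 hai (Nat.cast_nonneg (α := ℝ) (w j))
    have h3 := mul_le_mul_of_nonneg_left h2 (dl_nonneg (i + j))
    refine le_trans (le_of_eq ?_) h3
    rw [mul_sub, mul_one_div, mul_one_div]
  have h4 : 0 ≤ 1 / ((a i : ℝ) + 1) - 1 / ((u i : ℝ) + 1) := by
    rw [sub_nonneg]
    apply one_div_le_one_div_of_le (by positivity)
    linarith
  have h5 := mul_le_mul_of_nonneg_right (sum_dl_le i q) h4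
  have h6 : gl (i + 1) * (1 / ((a i : ℝ) + 1) - 1 / ((u i : ℝ) + 1)) =
      gl (i + 1) / ((a i : ℝ) + 1) - gl (i + 1) / ((u i : ℝ) + 1) := by
    rw [mul_sub, mul_one_div, mul_one_div]
  linarith

lemma cc_succ (p q : ℕ) (a b : ℕ → ℕ) : cc p q a b ≤ cc (p + 1) q a b := by
  rw [cc_eq, cc_eq, Finset.sum_range_succ]
  have h1 : ∑ j ∈ range q, dl (p + j) / ((a p : ℝ) + b j + 1) ≤ gl (p + 1) / ((a p : ℝ) + 1) := by
    have h2 : ∀ j ∈ range q, dl (p + j) / ((a p : ℝ) + b j + 1) ≤ dl (p + j) / ((a p : ℝ) + 1) := by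
      intro j _
      apply div_le_div_of_nonneg_left (dl_nonneg _) (by positivity)
      have : (0 : ℝ) ≤ b j := Nat.cast_nonneg _
      linarith
    refine (Finset.sum_le_sum h2).trans ?_
    rw [← Finset.sum_div]
    exact div_le_div_of_nonneg_right (sum_dl_le p q) (by positivity)
  linarith

lemma cc_mono_left {p p' : ℕ} (h : p ≤ p') (q : ℕ) (a b : ℕ → ℕ) :
    cc p q a b ≤ cc p' q a b := by
  induction h with
  | refl => exact le_refl _
  | step _ ih => exact ih.trans (cc_succ _ _ _ _)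

theorem cc_le {p q K : ℕ} (hp : p ≤ K) (hq : q ≤ K) (u w a b : ℕ → ℕ)
    (ha : ∀ i < p, a i ≤ u i) (hb : ∀ j < q, b j ≤ w j) : cc p q u w ≤ cc K K a b := by
  refine (cc_anti_left p q u w a ha).trans ?_
  rw [cc_symm]
  refine (cc_anti_left q p w a b hb).trans ?_
  refine (cc_mono_left hq p b a).trans ?_
  rw [cc_symm]
  exact cc_mono_left hp K a b

end Pool.Agent.StabM
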