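import Pool.Agent.StabM.Lat

set_option autoImplicit false

open Finset

namespace Pool.Agent.StabM

variable {n : ℕ} {S : Finset (Equiv.Perm (Fin n))} {r : Fin n → Fin n → ℤ}
  {σ : Equiv.Perm (Fin n)} {m : Fin n}

/-- the first partner in `low` -/
def IsNext (S : Finset (Equiv.Perm (Fin n))) (r : Fin n → Fin n → ℤ) (σ : Equiv.Perm (Fin n))
    (m w : Fin n) : Prop := w ∈ low S r σ m ∧ pos S r σ m w = 0

lemma IsNext.le {w v : Fin n} (h : IsNext S r σ m w) (hv : v ∈ low S r σ m) :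
    r m w ≤ r m v := by
  by_contra hcon
  rw [not_le] at hcon
  have := pos_lt_pos hv hcon
  rw [h.2] at this
  exact Nat.not_lt_zero _ this

lemma IsNext.uniq (hg : Good S r) {w v : Fin n} (h : IsNext S r σ m w) (h' : IsNext S r σ m v) :
    w = v := pos_injOn hg h.1 h'.1 (h.2.trans h'.2.symm)

/-- exposed -/
def Exp (S : Finset (Equiv.Perm (Fin n))) (r : Fin n → Fin n → ℤ) (σ : Equiv.Perm (Fin n))
    (m : Fin n) : Prop := 0 < (low S r σ m).card ∧ (Us S r σ m 0).card = 1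

/-- type A -/
def TA (S : Finset (Equiv.Perm (Fin n))) (r : Fin n → Fin n → ℤ) (σ : Equiv.Perm (Fin n))
    (m : Fin n) : Prop := 1 < (low S r σ m).card ∧ (Us S r σ m 0).card = 1 ∧
      (Us S r σ m 1).card = 2

/-- type B -/
def TB (S : Finset (Equiv.Perm (Fin n))) (r : Fin n → Fin n → ℤ) (σ : Equiv.Perm (Fin n))
    (m : Fin n) : Prop := 0 < (low S r σ m).card ∧ (Us S r σ m 0).card = 2 ∧
      (1 < (low S r σ m).card → 3 ≤ (Us S r σ m 1).card)

/-- an exchange of the partners of two men -/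
def Flip (S : Finset (Equiv.Perm (Fin n))) (r : Fin n → Fin n → ℤ) (σ : Equiv.Perm (Fin n))
    (m p : Fin n) : Prop := p ≠ m ∧ σ * Equiv.swap m p ∈ S ∧ r m (σ m) < r m (σ p) ∧
      r p (σ p) < r p (σ m)

lemma Flip.symm {p : Fin n} (h : Flip S r σ m p) : Flip S r σ p m := by
  obtain ⟨h1, h2, h3, h4⟩ := h
  refine ⟨h1.symm, ?_, h4, h3⟩
  rw [Equiv.swap_comm]
  exact h2

lemma agree_out {σ ν : Equiv.Perm (Fin n)} {A : Finset (Fin n)} (h : ∀ x, x ∉ A → ν x = σ x)
    {x : Fin n} (hx : x ∈ A) : ∃ y ∈ A, ν x = σ y := by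
  refine ⟨σ.symm (ν x), ?_, by simp⟩
  by_contra hcon
  have h1 := h _ hcon
  rw [Equiv.apply_symm_apply] at h1
  have h2 := ν.injective h1
  rw [h2] at hcon
  exact hcon hx

lemma agree_two {σ ν : Equiv.Perm (Fin n)} {m p : Fin n}
    (h : ∀ x, x ≠ m → x ≠ p → ν x = σ x) (hne : ν m ≠ σ m) :
    ν m = σ p ∧ ν p = σ m := by
  have h' : ∀ x, x ∉ ({m, p} : Finset (Fin n)) → ν x = σ x := by
    intro x hx
    rw [Finset.mem_insert, Finset.mem_singleton, not_or] at hx
    exact h x hx.1 hx.2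
  have h1 : ν m = σ p := by
    obtain ⟨y, hy, hy2⟩ := agree_out h' (x := m) (by simp)
    rw [Finset.mem_insert, Finset.mem_singleton] at hy
    rcases hy with rfl | rfl
    · exact absurd hy2 hne
    · exact hy2
  have hmp : p ≠ m := fun e => hne (by rw [h1, e])
  refine ⟨h1, ?_⟩
  obtain ⟨y, hy, hy2⟩ := agree_out h' (x := p) (by simp)
  rw [Finset.mem_insert, Finset.mem_singleton] at hy
  rcases hy with rfl | rfl
  · exact hy2
  · exact absurd (ν.injective (hy2.trans h1.symm)) hmp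

lemma swap_eq {σ ν : Equiv.Perm (Fin n)} {m p : Fin n}
    (h : ∀ x, x ≠ m → x ≠ p → ν x = σ x) (hne : ν m ≠ σ m) : ν = σ * Equiv.swap m p := by
  obtain ⟨h1, h2⟩ := agree_two h hne
  ext x
  rw [Equiv.Perm.mul_apply]
  rcases eq_or_ne x m with rfl | hxm
  · rw [Equiv.swap_apply_left, h1]
  · rcases eq_or_ne x p with rfl | hxp
    · rw [Equiv.swap_apply_right, h2]
    · rw [Equiv.swap_apply_of_ne_of_ne hxm hxp, h x hxm hxp]

lemma Flip.ple {p : Fin n} (h : Flip S r σ m p) : Ple r σ (σ * Equiv.swap m p) := by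
  obtain ⟨h1, h2, h3, h4⟩ := h
  intro x
  rw [Equiv.Perm.mul_apply]
  rcases eq_or_ne x m with rfl | hxm
  · rw [Equiv.swap_apply_left]; exact h3.le
  · rcases eq_or_ne x p with rfl | hxp
    · rw [Equiv.swap_apply_right]; exact h4.le
    · rw [Equiv.swap_apply_of_ne_of_ne hxm hxp]

lemma Flip.mem_low {p : Fin n} (h : Flip S r σ m p) : σ p ∈ low S r σ m := by
  rw [StabM.mem_low]
  refine ⟨⟨_, h.2.1, ?_⟩, h.2.2.1⟩
  rw [Equiv.Perm.mul_apply, Equiv.swap_apply_left]

lemma Flip.isNext (hg : Good S r) (hσ : σ ∈ S) {p : Fin n} (h : Flip S r σ m p) :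
    IsNext S r σ m (σ p) ∧ ∀ τ ∈ S, Ple r σ τ → r m (σ p) ≤ r m (τ m) →
      Ple r (σ * Equiv.swap m p) τ := by
  have hc : 0 < (low S r σ m).card := Finset.card_pos.mpr ⟨_, h.mem_low⟩
  obtain ⟨w, hw, hw0⟩ := exists_pos hg hc
  obtain ⟨ν, hν, hle, hνm, hleast, -⟩ := exists_least hg hσ hw
  have hnx : IsNext S r σ m w := ⟨hw, hw0⟩
  have h1 : Ple r ν (σ * Equiv.swap m p) := by
    apply hleast _ h.2.1 h.ple
    rw [Equiv.Perm.mul_apply, Equiv.swap_apply_left]
    exact hnx.le h.mem_low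
  have h2 : ∀ x, x ≠ m → x ≠ p → ν x = σ x := by
    intro x hxm hxp
    apply hg.inj x
    apply le_antisymm _ (hle x)
    have := h1 x
    rw [Equiv.Perm.mul_apply, Equiv.swap_apply_of_ne_of_ne hxm hxp] at this
    exact this
  have h3 : ν m ≠ σ m := by
    intro e
    have := (StabM.mem_low.mp hw).2
    rw [← hνm, e] at this
    exact lt_irrefl _ this
  have h4 := (agree_two h2 h3).1
  have h5 := swap_eq h2 h3
  have h6 : w = σ p := by rw [← hνm, h4]
  rw [← h6]
  refine ⟨hnx, ?_⟩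
  intro τ hτ ht1 ht2
  rw [← h5]
  exact hleast τ hτ ht1 ht2

lemma exp_iff (hg : Good S r) (hσ : σ ∈ S) : Exp S r σ m ↔ ∃ p, Flip S r σ m p := by
  constructor
  · rintro ⟨hc, h1⟩
    obtain ⟨w, hw, hw0⟩ := exists_pos hg hc
    obtain ⟨ν, hν, hle, hνm, hleast, hmv⟩ := exists_least hg hσ hw
    rw [hw0] at hmv
    rw [Finset.card_eq_one] at h1
    obtain ⟨p, hp⟩ := h1
    have hpm : p ∈ Us S r σ m 0 := by rw [hp]; simp
    have hpne : p ≠ m := (mem_Us.mp hpm).1
    have hpmv := (hmv p hpne).mp hpm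
    have h2 : ∀ x, x ≠ m → x ≠ p → ν x = σ x := by
      intro x hxm hxp
      apply hg.inj x
      apply le_antisymm _ (hle x)
      by_contra hcon
      rw [not_le] at hcon
      have h3 := (hmv x hxm).mpr hcon
      rw [hp, Finset.mem_singleton] at h3
      exact hxp h3
    have h3 : ν m ≠ σ m := by
      intro e
      have := (mem_low.mp hw).2
      rw [← hνm, e] at this
      exact lt_irrefl _ this
    obtain ⟨h4, h5⟩ := agree_two h2 h3
    refine ⟨p, hpne, ?_, ?_, ?_⟩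
    · rw [← swap_eq h2 h3]; exact hν
    · rw [← h4, hνm]; exact (mem_low.mp hw).2
    · rw [h5] at hpmv; exact hpmv
  · rintro ⟨p, h⟩
    have hc : 0 < (low S r σ m).card := Finset.card_pos.mpr ⟨_, h.mem_low⟩
    refine ⟨hc, ?_⟩
    apply le_antisymm
    · have hsub : Us S r σ m 0 ⊆ {p} := by
        intro x hx
        rw [mem_Us] at hx
        rw [Finset.mem_singleton]
        have h1 := hx.2 _ h.2.1 h.ple (by
          have h2 := (h.isNext hg hσ).1
          rw [← h2.2, lt_lev_iff h2.1, Equiv.Perm.mul_apply, Equiv.swap_apply_left])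
        by_contra hxp
        rw [Equiv.Perm.mul_apply, Equiv.swap_apply_of_ne_of_ne hx.1 hxp] at h1
        exact lt_irrefl _ h1
      exact (Finset.card_le_card hsub).trans (by simp)
    · exact card_Us_ge hg hσ hc

/-- exposed in both directions gives type A below -/
lemma flip_rev {p : Fin n} (h : Flip S (rev r) σ m p) (hσ : σ ∈ S) :
    Flip S r (σ * Equiv.swap m p) m p := by
  obtain ⟨h1, h2, h3, h4⟩ := h
  unfold rev at h3 h4
  refine ⟨h1, ?_, ?_, ?_⟩
  · rw [mul_assoc, Equiv.swap_mul_self, mul_one]; exact hσ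
  · rw [Equiv.Perm.mul_apply, Equiv.Perm.mul_apply, Equiv.swap_apply_left,
      Equiv.swap_apply_right]
    exact neg_lt_neg_iff.mp h3
  · rw [Equiv.Perm.mul_apply, Equiv.Perm.mul_apply, Equiv.swap_apply_left,
      Equiv.swap_apply_right]
    exact neg_lt_neg_iff.mp h4

lemma TA_of_two (hg : Good S r) (hσ : σ ∈ S) {p q : Fin n} (h : Flip S r σ m p)
    (h' : Flip S r (σ * Equiv.swap m p) m q) : TA S r σ m := by
  have hσ1 := h.2.1
  have hσ2 := h'.2.1
  set σ1 := σ * Equiv.swap m p with hs1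
  set σ2 := σ1 * Equiv.swap m q with hs2
  have e1 : σ1 m = σ p := by rw [hs1, Equiv.Perm.mul_apply, Equiv.swap_apply_left]
  have e2 : σ2 m = σ1 q := by rw [hs2, Equiv.Perm.mul_apply, Equiv.swap_apply_left]
  have l1 : r m (σ m) < r m (σ1 m) := by rw [e1]; exact h.2.2.1
  have l2 : r m (σ1 m) < r m (σ2 m) := by rw [e2]; exact h'.2.2.1
  have hle2 : Ple r σ σ2 := fun x => (h.ple x).trans (h'.ple x)
  have m1 : σ1 m ∈ low S r σ m := mem_low.mpr ⟨⟨_, hσ1, rfl⟩, l1⟩
  have m2 : σ2 m ∈ low S r σ m := mem_low.mpr ⟨⟨_, hσ2, rfl⟩, l1.trans l2⟩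
  have hc : 1 < (low S r σ m).card := by
    rw [Finset.one_lt_card]
    refine ⟨_, m1, _, m2, ?_⟩
    intro e
    rw [e] at l2
    exact lt_irrefl _ l2
  have hE := (exp_iff hg hσ).mpr ⟨p, h⟩
  refine ⟨hc, hE.2, ?_⟩
  apply le_antisymm _ (card_Us_ge hg hσ hc)
  have hlev : 1 < lev S r σ m σ2 := by
    unfold lev
    rw [Finset.one_lt_card]
    refine ⟨σ1 m, ?_, σ2 m, ?_, ?_⟩
    · rw [Finset.mem_filter]; exact ⟨m1, l2.le⟩
    · rw [Finset.mem_filter]; exact ⟨m2, le_refl _⟩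
    · intro e
      rw [e] at l2
      exact lt_irrefl _ l2
  have hsub : Us S r σ m 1 ⊆ {p, q} := by
    intro x hx
    rw [mem_Us] at hx
    have h1 := hx.2 _ hσ2 hle2 hlev
    rw [Finset.mem_insert, Finset.mem_singleton]
    by_contra hcon
    rw [not_or] at hcon
    rw [hs2, hs1, Equiv.Perm.mul_apply, Equiv.Perm.mul_apply,
      Equiv.swap_apply_of_ne_of_ne hx.1 hcon.2, Equiv.swap_apply_of_ne_of_ne hx.1 hcon.1] at h1
    exact lt_irrefl _ h1
  exact (Finset.card_le_card hsub).trans Finset.card_le_two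

open Classical in
/-- the next partner -/
noncomputable def nxt (S : Finset (Equiv.Perm (Fin n))) (r : Fin n → Fin n → ℤ)
    (σ : Equiv.Perm (Fin n)) (m : Fin n) : Fin n :=
  if h : ∃ w, IsNext S r σ m w then Classical.choose h else m

lemma nxt_eq (hg : Good S r) {w : Fin n} (h : IsNext S r σ m w) : nxt S r σ m = w := by
  unfold nxt
  have h1 : ∃ w, IsNext S r σ m w := ⟨w, h⟩
  rw [dif_pos h1]
  exact (Classical.choose_spec h1).uniq hg h

open Classical in
theorem count_both (hg : Good S r) :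
    ((S ×ˢ (Finset.univ : Finset (Fin n))).filter (fun x => Exp S r x.1 x.2 ∧
      Exp S (rev r) x.1 x.2)).card ≤
    ((S ×ˢ (Finset.univ : Finset (Fin n))).filter (fun x => TA S r x.1 x.2)).card := by
  have hsub : ((S ×ˢ (Finset.univ : Finset (Fin n))).filter (fun x => Exp S r x.1 x.2 ∧
      Exp S (rev r) x.1 x.2)) ⊆
      ((S ×ˢ (Finset.univ : Finset (Fin n))).filter (fun x => TA S r x.1 x.2)).image
      (fun x => (x.1 * Equiv.swap x.2 (x.1.symm (nxt S r x.1 x.2)), x.2)) := by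
    intro x hx
    rw [Finset.mem_filter, Finset.mem_product] at hx
    obtain ⟨⟨hxS, -⟩, h1, h2⟩ := hx
    rw [exp_iff hg hxS] at h1
    rw [exp_iff hg.rev hxS] at h2
    obtain ⟨q, hq⟩ := h1
    obtain ⟨p, hp⟩ := h2
    have h3 := flip_rev hp hxS
    have hmem : x.1 * Equiv.swap x.2 p ∈ S := hp.2.1
    have h4 : x.1 * Equiv.swap x.2 p * Equiv.swap x.2 p = x.1 := by
      rw [mul_assoc, Equiv.swap_mul_self, mul_one]
    rw [Finset.mem_image]
    refine ⟨(x.1 * Equiv.swap x.2 p, x.2), ?_, ?_⟩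
    · rw [Finset.mem_filter, Finset.mem_product]
      refine ⟨⟨hmem, Finset.mem_univ _⟩, ?_⟩
      refine TA_of_two hg hmem h3 (q := q) ?_
      simp only
      rw [h4]
      exact hq
    · have h5 := nxt_eq hg (h3.isNext hg hmem).1
      simp only
      rw [h5, Equiv.symm_apply_apply, h4]
  exact (Finset.card_le_card hsub).trans Finset.card_image_le

end Pool.Agent.StabM
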