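import Pool.Agent.StabM.Flip

set_option autoImplicit false

open Finset

namespace Pool.Agent.StabM

variable {n : ℕ} {S : Finset (Equiv.Perm (Fin n))} {r : Fin n → Fin n → ℤ}
  {σ : Equiv.Perm (Fin n)} {m : Fin n}

/-- from type A to type B -/
lemma TA_to_TB (hg : Good S r) (hσ : σ ∈ S) (hA : TA S r σ m) :
    ∃ p q, IsNext S r σ q (σ p) ∧ IsNext S r σ p (σ m) ∧ TB S r σ q := by
  obtain ⟨hc, hU0, hU1⟩ := hA
  have hE : Exp S r σ m := ⟨lt_trans Nat.zero_lt_one hc, hU0⟩
  obtain ⟨p, hF⟩ := (exp_iff hg hσ).mp hE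
  have hpm := hF.1
  obtain ⟨hnm, hleastm⟩ := hF.isNext hg hσ
  obtain ⟨hnp, hleastp⟩ := hF.symm.isNext hg hσ
  obtain ⟨w1, hw1, hw1p⟩ := exists_pos hg hc
  obtain ⟨ν1, hν1, hle1, hν1m, hleast1, hmv1⟩ := exists_least hg hσ hw1
  rw [hw1p] at hmv1
  have hpU0 : p ∈ Us S r σ m 0 := by
    have := holder_mem hg hσ hnm.1 (i := 0) hnm.2.le
    rw [Equiv.symm_apply_apply] at this
    exact this
  have hpU1 : p ∈ Us S r σ m 1 := Us_mono (Nat.zero_le 1) hpU0
  obtain ⟨q, hqU1, hqp⟩ : ∃ q ∈ Us S r σ m 1, q ≠ p := by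
    have h1 : 1 < (Us S r σ m 1).card := by rw [hU1]; norm_num
    exact Finset.exists_mem_ne h1 p
  have hqm : q ≠ m := (mem_Us.mp hqU1).1
  have hU1e : ∀ x ∈ Us S r σ m 1, x = p ∨ x = q := by
    intro x hx
    have h1 : ({p, q} : Finset (Fin n)) = Us S r σ m 1 := by
      apply Finset.eq_of_subset_of_card_le
      · intro y hy
        rw [Finset.mem_insert, Finset.mem_singleton] at hy
        rcases hy with rfl | rfl
        · exact hpU1
        · exact hqU1
      · rw [hU1, Finset.card_pair hqp.symm]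
    rw [← h1, Finset.mem_insert, Finset.mem_singleton] at hx
    exact hx
  have hout1 : ∀ x, x ∉ ({m, p, q} : Finset (Fin n)) → ν1 x = σ x := by
    intro x hx
    rw [Finset.mem_insert, Finset.mem_insert, Finset.mem_singleton, not_or, not_or] at hx
    apply hg.inj x
    apply le_antisymm _ (hle1 x)
    by_contra hcon
    rw [not_le] at hcon
    rcases hU1e x ((hmv1 x hx.1).mpr hcon) with h | h
    · exact hx.2.1 h
    · exact hx.2.2 h
  have hmq1 := (hmv1 q hqm).mp hqU1
  have hmp1 := (hmv1 p hpm).mp hpU1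
  have hbw : r m (σ p) < r m w1 := by
    rcases lt_trichotomy (r m (σ p)) (r m w1) with h | h | h
    · exact h
    · have h2 := hg.inj m h
      have h3 := hnm.2
      rw [h2, hw1p] at h3
      omega
    · have h2 := pos_lt_pos hw1 h
      rw [hnm.2] at h2
      omega
  have hab : r m (σ m) < r m (σ p) := hF.2.2.1
  -- the values of ν1
  have v1m : ν1 m = σ q := by
    obtain ⟨y, hy, hy2⟩ := agree_out hout1 (x := m) (by simp)
    rw [Finset.mem_insert, Finset.mem_insert, Finset.mem_singleton] at hy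
    rcases hy with rfl | rfl | rfl
    · exfalso
      rw [hν1m] at hy2
      rw [hy2] at hbw
      exact lt_asymm hab hbw
    · exfalso
      rw [hν1m] at hy2
      rw [hy2] at hbw
      exact lt_irrefl _ hbw
    · exact hy2
  have v1p : ν1 p = σ m := by
    obtain ⟨y, hy, hy2⟩ := agree_out hout1 (x := p) (by simp)
    rw [Finset.mem_insert, Finset.mem_insert, Finset.mem_singleton] at hy
    rcases hy with rfl | rfl | rfl
    · exact hy2
    · exfalso
      rw [hy2] at hmp1
      exact lt_irrefl _ hmp1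
    · exact absurd (ν1.injective (hy2.trans v1m.symm)) hpm
  have v1q : ν1 q = σ p := by
    obtain ⟨y, hy, hy2⟩ := agree_out hout1 (x := q) (by simp)
    rw [Finset.mem_insert, Finset.mem_insert, Finset.mem_singleton] at hy
    rcases hy with rfl | rfl | rfl
    · exact absurd (ν1.injective (hy2.trans v1p.symm)) hqp
    · exact hy2
    · exfalso
      rw [hy2] at hmq1
      exact lt_irrefl _ hmq1
  have hblow : σ p ∈ low S r σ q := by
    rw [mem_low]
    refine ⟨⟨ν1, hν1, v1q⟩, ?_⟩
    rw [← v1q]; exact hmq1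
  have hcq : 0 < (low S r σ q).card := Finset.card_pos.mpr ⟨_, hblow⟩
  obtain ⟨w', hw', hw'0⟩ := exists_pos hg hcq
  obtain ⟨ν', hν', hle', hν'q, hleast', hmv'⟩ := exists_least hg hσ hw'
  have hnq' : IsNext S r σ q w' := ⟨hw', hw'0⟩
  have hle'1 : Ple r ν' ν1 := by
    apply hleast' _ hν1 hle1
    rw [v1q]
    exact hnq'.le hblow
  have hout' : ∀ x, x ∉ ({m, p, q} : Finset (Fin n)) → ν' x = σ x := by
    intro x hx
    apply hg.inj x
    apply le_antisymm _ (hle' x)
    have := hle'1 x
    rw [hout1 x hx] at this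
    exact this
  have hlow' := (mem_low.mp hw').2
  have hlt_of_ne : ∀ x, ν' x ≠ σ x → r x (σ x) < r x (ν' x) := by
    intro x hx
    refine lt_of_le_of_ne (hle' x) ?_
    intro e
    exact hx (hg.inj x e).symm
  have hw'b : w' = σ p := by
    obtain ⟨y, hy, hy2⟩ := agree_out hout' (x := q) (by simp)
    rw [Finset.mem_insert, Finset.mem_insert, Finset.mem_singleton] at hy
    rcases hy with rfl | rfl | rfl
    · exfalso
      have h1 : ν' y ≠ σ y := by
        intro e
        rw [← e] at hy2
        exact hqm (ν'.injective hy2)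
      have h2 := hlt_of_ne y h1
      have h3 : r y (σ p) ≤ r y (ν' y) := hnm.le (mem_low.mpr ⟨⟨ν', hν', rfl⟩, h2⟩)
      have h4 := hleastm ν' hν' hle' h3 p
      rw [Equiv.Perm.mul_apply, Equiv.swap_apply_right] at h4
      have h5 := hle'1 p
      rw [v1p] at h5
      have h6 : ν' p = σ y := hg.inj p (le_antisymm h5 h4)
      exact hqp (ν'.injective (hy2.trans h6.symm))
    · rw [← hν'q, hy2]
    · exfalso
      rw [hν'q] at hy2
      rw [hy2] at hlow'
      exact lt_irrefl _ hlow'
  subst hw'b
  have v'p : ν' p = σ m := by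
    have h1 : ν' p ≠ σ p := by
      intro e
      exact hqp (ν'.injective (hν'q.trans e.symm))
    have h2 := hlt_of_ne p h1
    have h3 : r p (σ m) ≤ r p (ν' p) := hnp.le (mem_low.mpr ⟨⟨ν', hν', rfl⟩, h2⟩)
    have h5 := hle'1 p
    rw [v1p] at h5
    exact hg.inj p (le_antisymm h5 h3)
  have v'm : ν' m = σ q := by
    obtain ⟨y, hy, hy2⟩ := agree_out hout' (x := m) (by simp)
    rw [Finset.mem_insert, Finset.mem_insert, Finset.mem_singleton] at hy
    rcases hy with rfl | rfl | rfl
    · exact absurd (ν'.injective (v'p.trans hy2.symm)) hpm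
    · exact absurd (ν'.injective (hν'q.trans hy2.symm)) hqm
    · exact hy2
  have hmU : m ∈ Us S r σ q 0 := by
    rw [← hw'0]
    rw [hmv' m hqm.symm]
    apply hlt_of_ne
    rw [v'm]
    intro e
    exact hqm (σ.injective e)
  have hpU : p ∈ Us S r σ q 0 := by
    rw [← hw'0]
    rw [hmv' p hqp.symm]
    apply hlt_of_ne
    rw [v'p]
    intro e
    exact hpm (σ.injective e).symm
  have hUsub : Us S r σ q 0 ⊆ {m, p} := by
    intro x hx
    have hxq := (mem_Us.mp hx).1
    rw [← hw'0, hmv' x hxq] at hx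
    rw [Finset.mem_insert, Finset.mem_singleton]
    by_contra hcon
    rw [not_or] at hcon
    have h1 := hout' x (by simp [hcon.1, hcon.2, hxq])
    rw [h1] at hx
    exact lt_irrefl _ hx
  have hU0c : (Us S r σ q 0).card = 2 := by
    apply le_antisymm
    · exact (Finset.card_le_card hUsub).trans Finset.card_le_two
    · rw [← Finset.card_pair hpm.symm]
      apply Finset.card_le_card
      intro x hx
      rw [Finset.mem_insert, Finset.mem_singleton] at hx
      rcases hx with rfl | rfl
      · exact hmU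
      · exact hpU
  refine ⟨p, q, hnq', hnp, hcq, hU0c, ?_⟩
  intro hc2
  by_contra hcon
  rw [not_le] at hcon
  obtain ⟨w2, hw2, hw2p⟩ := exists_pos hg hc2
  obtain ⟨ν2, hν2, hle2, hν2q, hleast2, hmv2⟩ := exists_least hg hσ hw2
  rw [hw2p] at hmv2
  have hmU1 : m ∈ Us S r σ q 1 := Us_mono (Nat.zero_le 1) hmU
  have hpU1' : p ∈ Us S r σ q 1 := Us_mono (Nat.zero_le 1) hpU
  have hU1q : ∀ x ∈ Us S r σ q 1, x = m ∨ x = p := by
    intro x hx
    have h1 : ({m, p} : Finset (Fin n)) = Us S r σ q 1 := by
      apply Finset.eq_of_subset_of_card_le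
      · intro y hy
        rw [Finset.mem_insert, Finset.mem_singleton] at hy
        rcases hy with rfl | rfl
        · exact hmU1
        · exact hpU1'
      · rw [Finset.card_pair hpm.symm]
        omega
    rw [← h1, Finset.mem_insert, Finset.mem_singleton] at hx
    exact hx
  have hout2 : ∀ x, x ∉ ({m, p, q} : Finset (Fin n)) → ν2 x = σ x := by
    intro x hx
    rw [Finset.mem_insert, Finset.mem_insert, Finset.mem_singleton, not_or, not_or] at hx
    apply hg.inj x
    apply le_antisymm _ (hle2 x)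
    by_contra hcon2
    rw [not_le] at hcon2
    rcases hU1q x ((hmv2 x hx.2.2).mpr hcon2) with h | h
    · exact hx.1 h
    · exact hx.2.1 h
  have hbw2 : r q (σ p) < r q w2 := by
    rcases lt_trichotomy (r q (σ p)) (r q w2) with h | h | h
    · exact h
    · have h2 := hg.inj q h
      rw [h2, hw2p] at hw'0
      omega
    · have h2 := pos_lt_pos hw2 h
      rw [hw'0] at h2
      omega
  have hle'2 : Ple r ν' ν2 := by
    apply hleast' _ hν2 hle2
    rw [hν2q]
    exact hbw2.le
  have v2q : ν2 q = σ m := by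
    obtain ⟨y, hy, hy2⟩ := agree_out hout2 (x := q) (by simp)
    rw [Finset.mem_insert, Finset.mem_insert, Finset.mem_singleton] at hy
    rcases hy with rfl | rfl | rfl
    · exact hy2
    · exfalso
      rw [hν2q] at hy2
      rw [hy2] at hbw2
      exact lt_irrefl _ hbw2
    · exfalso
      rw [hν2q] at hy2
      rw [hy2] at hbw2
      exact lt_asymm hbw2 hlow'
  have v2p : ν2 p = σ q := by
    obtain ⟨y, hy, hy2⟩ := agree_out hout2 (x := p) (by simp)
    rw [Finset.mem_insert, Finset.mem_insert, Finset.mem_singleton] at hy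
    rcases hy with rfl | rfl | rfl
    · exact absurd (ν2.injective (v2q.trans hy2.symm)) hqp
    · exfalso
      have h1 := hle'2 y
      rw [hy2, v'p] at h1
      have h2 := hF.2.2.2
      exact absurd h1 (not_le.mpr h2)
    · exact hy2
  have v2m : ν2 m = σ p := by
    obtain ⟨y, hy, hy2⟩ := agree_out hout2 (x := m) (by simp)
    rw [Finset.mem_insert, Finset.mem_insert, Finset.mem_singleton] at hy
    rcases hy with rfl | rfl | rfl
    · exact absurd (ν2.injective (v2q.trans hy2.symm)) hqm
    · exact hy2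
    · exact absurd (ν2.injective (v2p.trans hy2.symm)) hpm
  have h1 := hle'2 m
  rw [v2m, v'm] at h1
  rw [← hν1m, v1m] at hbw
  exact absurd h1 (not_le.mpr hbw)

open Classical in
theorem count_AB_row (hg : Good S r) (hσ : σ ∈ S) :
    ((Finset.univ : Finset (Fin n)).filter (fun m => TA S r σ m)).card ≤
    ((Finset.univ : Finset (Fin n)).filter (fun m => TB S r σ m)).card := by
  have hsub : ((Finset.univ : Finset (Fin n)).filter (fun m => TA S r σ m)) ⊆
      ((Finset.univ : Finset (Fin n)).filter (fun m => TB S r σ m)).image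
      (fun q => σ.symm (nxt S r σ (σ.symm (nxt S r σ q)))) := by
    intro m hm
    rw [Finset.mem_filter] at hm
    obtain ⟨p, q, h1, h2, h3⟩ := TA_to_TB hg hσ hm.2
    rw [Finset.mem_image]
    refine ⟨q, ?_, ?_⟩
    · rw [Finset.mem_filter]
      exact ⟨Finset.mem_univ _, h3⟩
    · rw [nxt_eq hg h1, Equiv.symm_apply_apply, nxt_eq hg h2, Equiv.symm_apply_apply]
  exact (Finset.card_le_card hsub).trans Finset.card_image_le

end Pool.Agent.StabM
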