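import Pool.Agent.StabM.Cost

set_option autoImplicit false

open Finset

namespace Pool.Agent.StabM

lemma gl_zero : gl 0 = 0 := by simp [gl]

lemma gl_eq {k : ℕ} (hk : 1 ≤ k) : gl k = Real.log (1 + ((k : ℝ))⁻¹) := by
  have h : (0 : ℝ) < k := by exact_mod_cast hk
  unfold gl
  rw [← Real.log_div (by positivity) (by positivity)]
  congr 1
  field_simp

lemma gl_nonneg (k : ℕ) : 0 ≤ gl k := by
  rcases Nat.eq_zero_or_pos k with h | h
  · rw [h, gl_zero]
  · rw [gl_eq h]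
    apply Real.log_nonneg
    have : (0 : ℝ) ≤ ((k : ℝ))⁻¹ := by positivity
    linarith

lemma gl_anti {k : ℕ} (hk : 1 ≤ k) : gl (k + 1) ≤ gl k := by
  rw [gl_eq hk, gl_eq (by omega : 1 ≤ k + 1)]
  have h : (0 : ℝ) < k := by exact_mod_cast hk
  apply Real.log_le_log (by positivity)
  have : ((k + 1 : ℕ) : ℝ)⁻¹ ≤ ((k : ℝ))⁻¹ := by
    push_cast
    apply inv_anti₀ h
    linarith
  linarith

lemma dl_nonneg (k : ℕ) : 0 ≤ dl k := by
  unfold dl
  have := gl_anti (k := k + 1) (by omega)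
  linarith

/-- upper bound from the series of the inverse hyperbolic tangent -/
lemma gl_le {k : ℕ} (hk : 1 ≤ k) (x : ℝ) (hx : x = 1 / (2 * (k : ℝ) + 1)) :
    gl k ≤ 2 * x + 2 / 3 * x ^ 3 + 2 / 5 * x ^ 5 / (1 - x ^ 2) := by
  have h0 : (0 : ℝ) < k := by exact_mod_cast hk
  have hs := Real.hasSum_log_one_add_inv h0
  rw [gl_eq hk]
  have hx0 : 0 < x := by rw [hx]; positivity
  have hx1 : x < 1 := by
    rw [hx, div_lt_one (by positivity)]
    linarith
  have hx2 : x ^ 2 < 1 := by nlinarith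
  rw [← hx] at hs
  have hsum := hs.summable
  have h1 := hsum.sum_add_tsum_nat_add 2
  rw [hs.tsum_eq] at h1
  rw [← h1]
  have hg : Summable (fun j : ℕ => 2 / 5 * x ^ 5 * (x ^ 2) ^ j) :=
    (summable_geometric_of_lt_one (by positivity) hx2).mul_left _
  have h2 : ∑' j : ℕ, (2 : ℝ) * (1 / (2 * ((j + 2 : ℕ) : ℝ) + 1)) * x ^ (2 * (j + 2) + 1) ≤
      ∑' j : ℕ, 2 / 5 * x ^ 5 * (x ^ 2) ^ j := by
    refine Summable.tsum_le_tsum ?_ ?_ hg
    · intro j
      have e1 : x ^ (2 * (j + 2) + 1) = x ^ 5 * (x ^ 2) ^ j := by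
        rw [← pow_mul, ← pow_add]; congr 1; ring
      rw [e1]
      have e2 : (1 : ℝ) / (2 * ((j + 2 : ℕ) : ℝ) + 1) ≤ 1 / 5 := by
        apply one_div_le_one_div_of_le (by norm_num)
        push_cast
        have : (0 : ℝ) ≤ j := Nat.cast_nonneg j
        linarith
      have e3 : 0 ≤ x ^ 5 * (x ^ 2) ^ j := by positivity
      nlinarith
    · exact (summable_nat_add_iff 2).mpr hsum
  have h3 : ∑' j : ℕ, 2 / 5 * x ^ 5 * (x ^ 2) ^ j = 2 / 5 * x ^ 5 / (1 - x ^ 2) := by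
    rw [tsum_mul_left, tsum_geometric_of_lt_one (by positivity) hx2]
    rfl
  rw [h3] at h2
  simp only [Finset.sum_range_succ, Finset.sum_range_zero]
  norm_num at h2 ⊢
  linarith

/-- trapezoid bound -/
lemma gl_le_trap {k : ℕ} (hk : 1 ≤ k) :
    gl k ≤ (1 / (k : ℝ) + 1 / ((k : ℝ) + 1)) / 2 := by
  have h0 : (0 : ℝ) < k := by exact_mod_cast hk
  have h := gl_le hk (1 / (2 * (k : ℝ) + 1)) rfl
  refine h.trans ?_
  set x : ℝ := 1 / (2 * (k : ℝ) + 1) with hx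
  have hx0 : 0 < x := by positivity
  have hx1 : x < 1 := by
    rw [hx, div_lt_one (by positivity)]
    linarith
  have hx2 : 0 < 1 - x ^ 2 := by nlinarith
  have e : (1 / (k : ℝ) + 1 / ((k : ℝ) + 1)) / 2 = 2 * x / (1 - x ^ 2) := by
    have hk2 : (2 * (k : ℝ) + 1) * x = 1 := by rw [hx]; field_simp
    have hne : (1 - x ^ 2) ≠ 0 := hx2.ne'
    have h5 : 1 - x ^ 2 = 4 * k * (k + 1) * x ^ 2 := by
      have : ((2 * (k : ℝ) + 1) * x) ^ 2 = 1 := by rw [hk2]; norm_num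
      nlinarith [this]
    rw [h5]
    rw [div_add_div _ _ h0.ne' (by positivity), div_div, div_eq_div_iff (by positivity) (by positivity)]
    have : x = x * ((2 * (k : ℝ) + 1) * x) := by rw [hk2, mul_one]
    nlinarith [this, sq_nonneg x]
  rw [e]
  rw [le_div_iff₀ hx2]
  have e2 : 2 / 5 * x ^ 5 / (1 - x ^ 2) * (1 - x ^ 2) = 2 / 5 * x ^ 5 := by
    field_simp
  have : (2 * x + 2 / 3 * x ^ 3 + 2 / 5 * x ^ 5 / (1 - x ^ 2)) * (1 - x ^ 2) =
      (2 * x + 2 / 3 * x ^ 3) * (1 - x ^ 2) + 2 / 5 * x ^ 5 := by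
    rw [add_mul, e2]
  rw [this]
  have h3 : 0 < x ^ 3 := by positivity
  have h5 : 0 < x ^ 5 := by positivity
  nlinarith

/-- lower bound for logarithms -/
lemma log_ge {a : ℝ} (ha : 0 < a) (x : ℝ) (hx : x = 1 / (2 * a + 1)) :
    2 * x + 2 / 3 * x ^ 3 + 2 / 5 * x ^ 5 + 2 / 7 * x ^ 7 ≤ Real.log (1 + a⁻¹) := by
  have hs := Real.hasSum_log_one_add_inv ha
  rw [← hx] at hs
  have hx0 : 0 < x := by rw [hx]; positivity
  have h := sum_le_hasSum (range 4) (fun j _ => by positivity) hs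
  simp only [Finset.sum_range_succ, Finset.sum_range_zero] at h
  norm_num at h
  linarith

end Pool.Agent.StabM
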