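import Mathlib

set_option autoImplicit false

open Finset

namespace Pool.Agent.StabM

/-- position of `w` in `A` when sorted by `key` -/
def idx {n : ℕ} (A : Finset (Fin n)) (key : Fin n → ℕ) (w : Fin n) : ℕ :=
  (A.filter (fun v => key v < key w)).card

lemma idx_lt_of_key {n : ℕ} (A : Finset (Fin n)) (key : Fin n → ℕ) {v w : Fin n} (hv : v ∈ A)
    (h : key v < key w) : idx A key v < idx A key w := by
  unfold idx
  apply Finset.card_lt_card
  rw [Finset.ssubset_iff_of_subset]
  · exact ⟨v, by simp [hv, h], by simp⟩
  · intro x hx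
    rw [Finset.mem_filter] at hx ⊢
    exact ⟨hx.1, lt_trans hx.2 h⟩

lemma key_le_of_idx {n : ℕ} (A : Finset (Fin n)) (key : Fin n → ℕ) {v w : Fin n} (hw : w ∈ A)
    (h : idx A key v ≤ idx A key w) : key v ≤ key w := by
  by_contra hcon
  rw [not_le] at hcon
  exact absurd (idx_lt_of_key A key hw hcon) (not_lt.mpr h)

lemma idx_lt_card {n : ℕ} (A : Finset (Fin n)) (key : Fin n → ℕ) {w : Fin n} (hw : w ∈ A) :
    idx A key w < A.card := by
  unfold idx
  apply Finset.card_lt_card
  rw [Finset.ssubset_iff_of_subset (Finset.filter_subset _ _)]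
  exact ⟨w, hw, by simp⟩

lemma idx_injOn {n : ℕ} (A : Finset (Fin n)) (key : Fin n → ℕ) (hk : Function.Injective key) :
    Set.InjOn (idx A key) (A : Set (Fin n)) := by
  intro v hv w hw h
  have h1 := key_le_of_idx A key hw h.le
  have h2 := key_le_of_idx A key hv h.ge
  exact hk (le_antisymm h1 h2)

lemma image_idx {n : ℕ} (A : Finset (Fin n)) (key : Fin n → ℕ) (hk : Function.Injective key) :
    A.image (idx A key) = range A.card := by
  apply Finset.eq_of_subset_of_card_le
  · intro x hx
    rw [Finset.mem_image] at hx
    obtain ⟨w, hw, rfl⟩ := hx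
    exact Finset.mem_range.mpr (idx_lt_card A key hw)
  · rw [Finset.card_image_of_injOn (idx_injOn A key hk), Finset.card_range]

lemma card_idx_le {n : ℕ} (A : Finset (Fin n)) (key : Fin n → ℕ) (hk : Function.Injective key)
    {i : ℕ} (hi : i < A.card) : (A.filter (fun w => idx A key w ≤ i)).card = i + 1 := by
  have h1 : (A.filter (fun w => idx A key w ≤ i)).card =
      ((A.filter (fun w => idx A key w ≤ i)).image (idx A key)).card := by
    rw [Finset.card_image_of_injOn]
    exact (idx_injOn A key hk).mono (by intro x hx; simp at hx; exact hx.1)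
  have h2 : (A.filter (fun w => idx A key w ≤ i)).image (idx A key) =
      (A.image (idx A key)).filter (fun j => j ≤ i) := by
    rw [Finset.filter_image]
  rw [h1, h2, image_idx A key hk]
  have : (range A.card).filter (fun j => j ≤ i) = range (i + 1) := by
    ext j
    simp only [Finset.mem_filter, Finset.mem_range]
    omega
  rw [this, Finset.card_range]

end Pool.Agent.StabM
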