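import Mathlib

set_option autoImplicit false

open Finset

namespace Pool.Agent.StabM

/-- number of possible next values, standard order -/
def cnt {α : Type} [DecidableEq α] {n : ℕ} (S : Finset (Fin n → α)) (f : Fin n → α) (i : Fin n) : ℕ :=
  ((S.filter (fun g => ∀ j, j < i → g j = f j)).image (fun g => g i)).card

lemma cnt_pos {α : Type} [DecidableEq α] {n : ℕ} (S : Finset (Fin n → α)) (f : Fin n → α)
    (hf : f ∈ S) (i : Fin n) : 0 < cnt S f i := by
  unfold cnt
  rw [Finset.card_pos]
  exact ⟨f i, Finset.mem_image_of_mem _ (by simp [hf])⟩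

/-- tails of the sequences starting with `v` -/
def tl {α : Type} [DecidableEq α] {n : ℕ} (S : Finset (Fin (n + 1) → α)) (v : α) :
    Finset (Fin n → α) :=
  (S.filter (fun f => f 0 = v)).image Fin.tail

lemma mem_tl {α : Type} [DecidableEq α] {n : ℕ} (S : Finset (Fin (n + 1) → α)) (v : α)
    (g : Fin n → α) : g ∈ tl S v ↔ Fin.cons v g ∈ S := by
  unfold tl
  simp only [Finset.mem_image, Finset.mem_filter]
  constructor
  · rintro ⟨f, ⟨hf, h0⟩, rfl⟩
    have : (Fin.cons v (Fin.tail f) : Fin (n + 1) → α) = f := by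
      rw [← h0]; exact Fin.cons_self_tail f
    rw [this]; exact hf
  · intro h
    exact ⟨_, ⟨h, by simp⟩, by simp⟩

lemma cnt_zero {α : Type} [DecidableEq α] {n : ℕ} (S : Finset (Fin (n + 1) → α))
    (f : Fin (n + 1) → α) : cnt S f 0 = (S.image (fun g => g 0)).card := by
  unfold cnt
  congr 2
  ext g
  simp

lemma cnt_succ {α : Type} [DecidableEq α] {n : ℕ} (S : Finset (Fin (n + 1) → α))
    (v : α) (g : Fin n → α) (i : Fin n) :
    cnt S (Fin.cons v g) i.succ = cnt (tl S v) g i := by
  unfold cnt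
  congr 1
  ext w
  simp only [Finset.mem_image, Finset.mem_filter]
  constructor
  · rintro ⟨f, ⟨hf, hj⟩, rfl⟩
    have h0 : f 0 = v := by
      have := hj 0 (Fin.succ_pos i)
      simpa using this
    refine ⟨Fin.tail f, ⟨?_, ?_⟩, rfl⟩
    · rw [mem_tl]
      have : (Fin.cons v (Fin.tail f) : Fin (n + 1) → α) = f := by
        rw [← h0]; exact Fin.cons_self_tail f
      rw [this]; exact hf
    · intro j hji
      have := hj j.succ (Fin.succ_lt_succ_iff.mpr hji)
      simpa [Fin.tail] using this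
  · rintro ⟨f, ⟨hf, hj⟩, rfl⟩
    rw [mem_tl] at hf
    refine ⟨Fin.cons v f, ⟨hf, ?_⟩, by simp⟩
    intro j hji
    refine Fin.cases ?_ ?_ j hji
    · intro _; simp
    · intro j hji
      simp only [Fin.cons_succ]
      exact hj j (Fin.succ_lt_succ_iff.mp hji)

theorem kraft {α : Type} [DecidableEq α] : ∀ (n : ℕ) (S : Finset (Fin n → α)),
    ∑ f ∈ S, ∏ i, (1 / (cnt S f i : ℝ)) ≤ 1
  | 0, S => by
    have h1 : ∀ f ∈ S, ∏ i, (1 / (cnt S f i : ℝ)) = 1 := by
      intro f _; simp
    rw [Finset.sum_congr rfl h1]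
    simp only [Finset.sum_const, nsmul_eq_mul, mul_one]
    have : S.card ≤ 1 := by
      rw [Finset.card_le_one]
      intro a _ b _
      exact Subsingleton.elim a b
    exact_mod_cast this
  | (n + 1), S => by
    classical
    set V := S.image (fun g => g 0) with hV
    have h1 : ∑ f ∈ S, ∏ i, (1 / (cnt S f i : ℝ)) =
        ∑ v ∈ V, ∑ f ∈ S with f 0 = v, ∏ i, (1 / (cnt S f i : ℝ)) := by
      rw [Finset.sum_fiberwise_of_maps_to]
      intro f hf
      exact Finset.mem_image_of_mem _ hf
    rw [h1]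
    have h2 : ∀ v ∈ V, ∑ f ∈ S with f 0 = v, ∏ i, (1 / (cnt S f i : ℝ)) ≤ 1 / (V.card : ℝ) := by
      intro v hv
      have h3 : ∑ f ∈ S with f 0 = v, ∏ i, (1 / (cnt S f i : ℝ)) =
          ∑ g ∈ tl S v, (1 / (V.card : ℝ)) * ∏ i, (1 / (cnt (tl S v) g i : ℝ)) := by
        symm
        refine Finset.sum_bij (fun g _ => (Fin.cons v g : Fin (n + 1) → α)) ?_ ?_ ?_ ?_
        · intro g hg
          rw [mem_tl] at hg
          simp [hg]
        · intro g _ g' _ h
          exact Fin.cons_right_injective (α := fun _ => α) v h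
        · intro f hf
          rw [Finset.mem_filter] at hf
          refine ⟨Fin.tail f, ?_, ?_⟩
          · rw [mem_tl]
            have : (Fin.cons v (Fin.tail f) : Fin (n + 1) → α) = f := by
              rw [← hf.2]; exact Fin.cons_self_tail f
            rw [this]; exact hf.1
          · rw [← hf.2]; exact Fin.cons_self_tail f
        · intro g hg
          rw [Fin.prod_univ_succ, cnt_zero]
          congr 1
          refine Finset.prod_congr rfl ?_
          intro i _
          rw [cnt_succ]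
      rw [h3, ← Finset.mul_sum]
      have h4 := kraft n (tl S v)
      have h5 : (0 : ℝ) ≤ 1 / (V.card : ℝ) := by positivity
      calc (1 / (V.card : ℝ)) * ∑ g ∈ tl S v, ∏ i, (1 / (cnt (tl S v) g i : ℝ))
          ≤ (1 / (V.card : ℝ)) * 1 := mul_le_mul_of_nonneg_left h4 h5
        _ = 1 / (V.card : ℝ) := mul_one _
    calc ∑ v ∈ V, ∑ f ∈ S with f 0 = v, ∏ i, (1 / (cnt S f i : ℝ))
        ≤ ∑ v ∈ V, 1 / (V.card : ℝ) := Finset.sum_le_sum h2
      _ = (V.card : ℝ) * (1 / (V.card : ℝ)) := by simp
      _ ≤ 1 := by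
        rcases Nat.eq_zero_or_pos V.card with h | h
        · rw [h]; simp
        · have : (V.card : ℝ) ≠ 0 := by positivity
          field_simp
          exact le_refl _

/-- number of possible values of `g m`, given the values at the indices revealed before `m`
in the order given by the ranks `π`. -/
def cntP {α : Type} [DecidableEq α] {n : ℕ} (π : Equiv.Perm (Fin n)) (S : Finset (Fin n → α))
    (f : Fin n → α) (m : Fin n) : ℕ :=
  ((S.filter (fun g => ∀ j, π j < π m → g j = f j)).image (fun g => g m)).card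

lemma cntP_pos {α : Type} [DecidableEq α] {n : ℕ} (π : Equiv.Perm (Fin n))
    (S : Finset (Fin n → α)) (f : Fin n → α)
    (hf : f ∈ S) (i : Fin n) : 0 < cntP π S f i := by
  unfold cntP
  rw [Finset.card_pos]
  exact ⟨f i, Finset.mem_image_of_mem _ (by simp [hf])⟩

theorem kraftP {α : Type} [DecidableEq α] {n : ℕ} (π : Equiv.Perm (Fin n))
    (S : Finset (Fin n → α)) : ∑ f ∈ S, ∏ i, (1 / (cntP π S f i : ℝ)) ≤ 1 := by
  classical
  set S' := S.image (fun f => f ∘ π.symm) with hS'
  have hinj : Function.Injective (fun f : Fin n → α => f ∘ π.symm) := by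
    intro f g h
    ext i
    have := congrFun h (π i)
    simpa using this
  have h1 : ∑ f ∈ S, ∏ i, (1 / (cntP π S f i : ℝ)) = ∑ f ∈ S', ∏ i, (1 / (cnt S' f i : ℝ)) := by
    rw [hS', Finset.sum_image (fun a _ b _ h => hinj h)]
    refine Finset.sum_congr rfl ?_
    intro f _
    rw [← Equiv.prod_comp π (fun t => 1 / (cnt S' (f ∘ π.symm) t : ℝ))]
    refine Finset.prod_congr rfl ?_
    intro m _
    congr 2
    unfold cntP cnt
    congr 1
    ext w
    simp only [Finset.mem_image, Finset.mem_filter]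
    constructor
    · rintro ⟨g, ⟨hg, hj⟩, rfl⟩
      refine ⟨g ∘ π.symm, ⟨Finset.mem_image_of_mem _ hg, ?_⟩, by simp⟩
      intro j hj'
      simp only [Function.comp]
      apply hj
      simpa using hj'
    · rintro ⟨g', ⟨hg', hj⟩, rfl⟩
      rw [hS', Finset.mem_image] at hg'
      obtain ⟨g, hg, rfl⟩ := hg'
      refine ⟨g, ⟨hg, ?_⟩, by simp⟩
      intro j hj'
      have := hj (π j) hj'
      simpa using this
  rw [h1]
  exact kraft n S'

theorem log_card_le {α : Type} [DecidableEq α] {n : ℕ} (π : Equiv.Perm (Fin n))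
    (S : Finset (Fin n → α)) (hS : S.Nonempty) :
    (S.card : ℝ) * Real.log S.card ≤ ∑ f ∈ S, ∑ i, Real.log (cntP π S f i) := by
  have hc : (0 : ℝ) < S.card := by exact_mod_cast Finset.card_pos.mpr hS
  have h1 : ∀ f ∈ S, Real.log S.card - ∑ i, Real.log (cntP π S f i) ≤
      S.card * ∏ i, (1 / (cntP π S f i : ℝ)) - 1 := by
    intro f hf
    have hp : ∀ i, (0 : ℝ) < cntP π S f i := fun i => by exact_mod_cast cntP_pos π S f hf i
    have hpp : (0 : ℝ) < ∏ i, (1 / (cntP π S f i : ℝ)) :=
      Finset.prod_pos (fun i _ => one_div_pos.mpr (hp i))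
    have h2 : Real.log (S.card * ∏ i, (1 / (cntP π S f i : ℝ))) =
        Real.log S.card - ∑ i, Real.log (cntP π S f i) := by
      rw [Real.log_mul hc.ne' hpp.ne', Real.log_prod (fun i _ => (one_div_pos.mpr (hp i)).ne')]
      have : ∀ i, Real.log (1 / (cntP π S f i : ℝ)) = - Real.log (cntP π S f i) := by
        intro i
        rw [one_div, Real.log_inv]
      simp only [this, Finset.sum_neg_distrib]
      ring
    rw [← h2]
    exact Real.log_le_sub_one_of_pos (mul_pos hc hpp)
  have h3 := Finset.sum_le_sum h1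
  rw [Finset.sum_sub_distrib, Finset.sum_sub_distrib, ← Finset.mul_sum] at h3
  simp only [Finset.sum_const, nsmul_eq_mul, mul_one] at h3
  have h4 := kraftP π S
  nlinarith [mul_le_mul_of_nonneg_left h4 hc.le]

end Pool.Agent.StabM
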