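import Pool.Agent.StabM.Idx

set_option autoImplicit false

/-!
Families of perfect matchings (men to women) which are closed under the pointwise maximum and
minimum with respect to a rank function `r` for every man.
-/

open Finset

namespace Pool.Agent.StabM

variable {n : ℕ}

/-- pointwise order -/
def Ple (r : Fin n → Fin n → ℤ) (σ τ : Equiv.Perm (Fin n)) : Prop :=
  ∀ q, r q (σ q) ≤ r q (τ q)

/-- closed under pointwise maxima and minima -/
structure Good (S : Finset (Equiv.Perm (Fin n))) (r : Fin n → Fin n → ℤ) : Prop where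
  inj : ∀ m, Function.Injective (r m)
  max : ∀ σ ∈ S, ∀ τ ∈ S, ∃ κ ∈ S, ∀ m, r m (κ m) = max (r m (σ m)) (r m (τ m))
  min : ∀ σ ∈ S, ∀ τ ∈ S, ∃ κ ∈ S, ∀ m, r m (κ m) = min (r m (σ m)) (r m (τ m))

/-- the reversed ranks -/
def rev (r : Fin n → Fin n → ℤ) : Fin n → Fin n → ℤ := fun m w => - r m w

lemma Good.rev {S : Finset (Equiv.Perm (Fin n))} {r : Fin n → Fin n → ℤ} (h : Good S r) :
    Good S (rev r) := by
  refine ⟨?_, ?_, ?_⟩
  · intro m a b hab
    exact h.inj m (neg_injective hab)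
  · intro σ hσ τ hτ
    obtain ⟨κ, hκ, hk⟩ := h.min σ hσ τ hτ
    refine ⟨κ, hκ, fun m => ?_⟩
    unfold StabM.rev
    rw [hk m, max_neg_neg]
  · intro σ hσ τ hτ
    obtain ⟨κ, hκ, hk⟩ := h.max σ hσ τ hτ
    refine ⟨κ, hκ, fun m => ?_⟩
    unfold StabM.rev
    rw [hk m, min_neg_neg]

lemma rev_rev (r : Fin n → Fin n → ℤ) : rev (rev r) = r := by
  ext m w
  simp [rev]

/-- partners of `m` in the family of larger rank than `σ m` -/
def low (S : Finset (Equiv.Perm (Fin n))) (r : Fin n → Fin n → ℤ) (σ : Equiv.Perm (Fin n))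
    (m : Fin n) : Finset (Fin n) :=
  (S.image (fun τ => τ m)).filter (fun w => r m (σ m) < r m w)

lemma mem_low {S : Finset (Equiv.Perm (Fin n))} {r : Fin n → Fin n → ℤ} {σ : Equiv.Perm (Fin n)}
    {m w : Fin n} : w ∈ low S r σ m ↔ (∃ τ ∈ S, τ m = w) ∧ r m (σ m) < r m w := by
  unfold low
  rw [Finset.mem_filter, Finset.mem_image]

/-- number of partners in `low` up to the partner in `τ` -/
def lev (S : Finset (Equiv.Perm (Fin n))) (r : Fin n → Fin n → ℤ) (σ : Equiv.Perm (Fin n))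
    (m : Fin n) (τ : Equiv.Perm (Fin n)) : ℕ :=
  ((low S r σ m).filter (fun w => r m w ≤ r m (τ m))).card

/-- position in `low` -/
def pos (S : Finset (Equiv.Perm (Fin n))) (r : Fin n → Fin n → ℤ) (σ : Equiv.Perm (Fin n))
    (m w : Fin n) : ℕ :=
  ((low S r σ m).filter (fun v => r m v < r m w)).card

/-- blocking sets -/
noncomputable def Us (S : Finset (Equiv.Perm (Fin n))) (r : Fin n → Fin n → ℤ)
    (σ : Equiv.Perm (Fin n)) (m : Fin n) (i : ℕ) : Finset (Fin n) := by
  classical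
  exact Finset.univ.filter (fun q => q ≠ m ∧ ∀ τ ∈ S, Ple r σ τ → i < lev S r σ m τ →
    r q (σ q) < r q (τ q))

lemma mem_Us {S : Finset (Equiv.Perm (Fin n))} {r : Fin n → Fin n → ℤ} {σ : Equiv.Perm (Fin n)}
    {m : Fin n} {i : ℕ} {q : Fin n} : q ∈ Us S r σ m i ↔ q ≠ m ∧ ∀ τ ∈ S, Ple r σ τ →
      i < lev S r σ m τ → r q (σ q) < r q (τ q) := by
  unfold Us
  simp

lemma Us_mono {S : Finset (Equiv.Perm (Fin n))} {r : Fin n → Fin n → ℤ} {σ : Equiv.Perm (Fin n)}
    {m : Fin n} {i j : ℕ} (hij : i ≤ j) : Us S r σ m i ⊆ Us S r σ m j := by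
  intro q hq
  rw [mem_Us] at hq ⊢
  exact ⟨hq.1, fun τ hτ h1 h2 => hq.2 τ hτ h1 (lt_of_le_of_lt hij h2)⟩

variable {S : Finset (Equiv.Perm (Fin n))} {r : Fin n → Fin n → ℤ} {σ : Equiv.Perm (Fin n)}
  {m : Fin n}

lemma pos_lt_card {w : Fin n} (hw : w ∈ low S r σ m) : pos S r σ m w < (low S r σ m).card := by
  unfold pos
  apply Finset.card_lt_card
  rw [Finset.ssubset_iff_of_subset (Finset.filter_subset _ _)]
  exact ⟨w, hw, by simp⟩

lemma pos_lt_pos {v w : Fin n} (hv : v ∈ low S r σ m) (h : r m v < r m w) :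
    pos S r σ m v < pos S r σ m w := by
  unfold pos
  apply Finset.card_lt_card
  rw [Finset.ssubset_iff_of_subset]
  · exact ⟨v, by simp [hv, h], by simp⟩
  · intro x hx
    rw [Finset.mem_filter] at hx ⊢
    exact ⟨hx.1, lt_trans hx.2 h⟩

lemma pos_injOn (hg : Good S r) : Set.InjOn (pos S r σ m) (low S r σ m : Set (Fin n)) := by
  intro v hv w hw h
  rcases lt_trichotomy (r m v) (r m w) with h1 | h1 | h1
  · exact absurd (pos_lt_pos hv h1) (by rw [h]; exact lt_irrefl _)
  · exact hg.inj m h1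
  · exact absurd (pos_lt_pos hw h1) (by rw [h]; exact lt_irrefl _)

lemma image_pos (hg : Good S r) : (low S r σ m).image (pos S r σ m) =
    range (low S r σ m).card := by
  apply Finset.eq_of_subset_of_card_le
  · intro x hx
    rw [Finset.mem_image] at hx
    obtain ⟨w, hw, rfl⟩ := hx
    exact Finset.mem_range.mpr (pos_lt_card hw)
  · rw [Finset.card_image_of_injOn (pos_injOn hg), Finset.card_range]

lemma exists_pos (hg : Good S r) {i : ℕ} (hi : i < (low S r σ m).card) :
    ∃ w ∈ low S r σ m, pos S r σ m w = i := by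
  have : i ∈ (low S r σ m).image (pos S r σ m) := by
    rw [image_pos hg]; exact Finset.mem_range.mpr hi
  rw [Finset.mem_image] at this
  exact this

/-- `lev` and `pos` -/
lemma lt_lev_iff {w : Fin n} (hw : w ∈ low S r σ m) (τ : Equiv.Perm (Fin n)) :
    pos S r σ m w < lev S r σ m τ ↔ r m w ≤ r m (τ m) := by
  constructor
  · intro h
    by_contra hcon
    rw [not_le] at hcon
    apply absurd h
    rw [not_lt]
    unfold lev pos
    apply Finset.card_le_card
    intro x hx
    rw [Finset.mem_filter] at hx ⊢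
    exact ⟨hx.1, lt_of_le_of_lt hx.2 hcon⟩
  · intro h
    unfold lev pos
    apply Finset.card_lt_card
    rw [Finset.ssubset_iff_of_subset]
    · exact ⟨w, by simp [hw, h], by simp⟩
    · intro x hx
      rw [Finset.mem_filter] at hx ⊢
      exact ⟨hx.1, hx.2.le.trans h⟩

/-- no crossing -/
lemma no_cross (hg : Good S r) {τ ν : Equiv.Perm (Fin n)} (hσ : σ ∈ S) (hτ : τ ∈ S) (hν : ν ∈ S)
    (hag : τ (σ.symm (ν m)) = ν m) (h : r m (σ m) < r m (ν m)) : r m (τ m) < r m (ν m) := by
  by_contra hcon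
  rw [not_lt] at hcon
  set p := σ.symm (ν m) with hp
  have hσp : σ p = ν m := by rw [hp]; simp
  have hpm : p ≠ m := by
    intro e
    rw [e] at hσp
    rw [hσp] at h
    exact lt_irrefl _ h
  obtain ⟨κ1, hκ1, hk1⟩ := hg.max σ hσ ν hν
  have e1 : κ1 m = ν m := by
    apply hg.inj m
    rw [hk1 m, max_eq_right h.le]
  have e2 : r p (ν m) < r p (ν p) := by
    by_contra h2
    rw [not_lt] at h2
    have h3 := hk1 p
    rw [hσp, max_eq_left h2] at h3
    have h4 : κ1 p = ν m := hg.inj p h3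
    exact hpm (κ1.injective (h4.trans e1.symm))
  obtain ⟨κ2, hκ2, hk2⟩ := hg.min τ hτ ν hν
  have e3 : κ2 m = ν m := by
    apply hg.inj m
    rw [hk2 m, min_eq_right hcon]
  have e4 : κ2 p = ν m := by
    apply hg.inj p
    rw [hk2 p, hag, min_eq_left e2.le]
  exact hpm (κ2.injective (e4.trans e3.symm))

lemma holder_mem (hg : Good S r) (hσ : σ ∈ S) {i : ℕ} {w : Fin n} (hw : w ∈ low S r σ m)
    (hi : pos S r σ m w ≤ i) : σ.symm w ∈ Us S r σ m i := by
  rw [mem_Us]
  have hw' := mem_low.mp hw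
  obtain ⟨⟨ν, hν, hνm⟩, hlt⟩ := hw'
  refine ⟨?_, ?_⟩
  · intro e
    have : σ m = w := by rw [← e]; simp
    rw [this] at hlt
    exact lt_irrefl _ hlt
  · intro τ hτ hle hlev
    refine lt_of_le_of_ne (hle _) ?_
    intro heq
    have h1 : τ (σ.symm w) = w := by
      have := hg.inj _ heq
      rw [← this]; simp
    subst hνm
    have h2 := no_cross hg hσ hτ hν h1 hlt
    have h3 := (lt_lev_iff hw τ).mp (lt_of_le_of_lt hi hlev)
    exact absurd h2 (not_lt.mpr h3)

lemma card_Us_ge (hg : Good S r) (hσ : σ ∈ S) {i : ℕ} (hi : i < (low S r σ m).card) :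
    i + 1 ≤ (Us S r σ m i).card := by
  have h1 : ((low S r σ m).filter (fun w => pos S r σ m w ≤ i)).card = i + 1 := by
    have h2 : ((low S r σ m).filter (fun w => pos S r σ m w ≤ i)).card =
        (((low S r σ m).filter (fun w => pos S r σ m w ≤ i)).image (pos S r σ m)).card := by
      rw [Finset.card_image_of_injOn]
      exact (pos_injOn hg).mono (by intro x hx; simp at hx; exact hx.1)
    have h3 : ((low S r σ m).filter (fun w => pos S r σ m w ≤ i)).image (pos S r σ m) =
        ((low S r σ m).image (pos S r σ m)).filter (fun j => j ≤ i) := by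
      rw [Finset.filter_image]
    rw [h2, h3, image_pos hg]
    have : (range (low S r σ m).card).filter (fun j => j ≤ i) = range (i + 1) := by
      ext j
      simp only [Finset.mem_filter, Finset.mem_range]
      omega
    rw [this, Finset.card_range]
  rw [← h1]
  apply Finset.card_le_card_of_injOn (fun w => σ.symm w)
  · intro w hw
    rw [Finset.mem_coe, Finset.mem_filter] at hw
    exact holder_mem hg hσ hw.1 hw.2
  · intro a _ b _ h
    exact σ.symm.injective h

/-- the least element above `σ` at which the partner of `m` has moved at least to the partner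
number `i` -/
lemma exists_least (hg : Good S r) (hσ : σ ∈ S) {w : Fin n} (hw : w ∈ low S r σ m) :
    ∃ ν ∈ S, Ple r σ ν ∧ ν m = w ∧
      (∀ τ ∈ S, Ple r σ τ → r m w ≤ r m (τ m) → Ple r ν τ) ∧
      (∀ q, q ≠ m → (q ∈ Us S r σ m (pos S r σ m w) ↔ r q (σ q) < r q (ν q))) := by
  classical
  set T := S.filter (fun τ => Ple r σ τ ∧ r m w ≤ r m (τ m)) with hT
  have hTn : T.Nonempty := by
    obtain ⟨⟨τ, hτ, hτm⟩, hlt⟩ := mem_low.mp hw
    obtain ⟨κ, hκ, hk⟩ := hg.max σ hσ τ hτ
    refine ⟨κ, ?_⟩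
    rw [hT, Finset.mem_filter]
    refine ⟨hκ, ?_, ?_⟩
    · intro q
      rw [hk q]
      exact le_max_left _ _
    · rw [hk m, hτm]
      exact le_max_right _ _
  obtain ⟨ν, hν, hmin⟩ := Finset.exists_min_image T (fun τ => ∑ q, r q (τ q)) hTn
  rw [hT, Finset.mem_filter] at hν
  have hleast : ∀ τ ∈ S, Ple r σ τ → r m w ≤ r m (τ m) → Ple r ν τ := by
    intro τ hτ h1 h2
    obtain ⟨κ, hκ, hk⟩ := hg.min ν hν.1 τ hτ
    have hκT : κ ∈ T := by
      rw [hT, Finset.mem_filter]
      refine ⟨hκ, ?_, ?_⟩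
      · intro q
        rw [hk q]
        exact le_min (hν.2.1 q) (h1 q)
      · rw [hk m]
        exact le_min hν.2.2 h2
    have h3 := hmin κ hκT
    intro q
    by_contra hcon
    rw [not_le] at hcon
    have h4 : ∑ q, r q (κ q) < ∑ q, r q (ν q) := by
      apply Finset.sum_lt_sum
      · intro q' _
        rw [hk q']
        exact min_le_left _ _
      · refine ⟨q, Finset.mem_univ _, ?_⟩
        rw [hk q]
        exact lt_of_le_of_lt (min_le_right _ _) hcon
    exact absurd h3 (not_le.mpr h4)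
  have hνm : ν m = w := by
    obtain ⟨⟨τ, hτ, hτm⟩, hlt⟩ := mem_low.mp hw
    obtain ⟨κ, hκ, hk⟩ := hg.max σ hσ τ hτ
    have h1 : r m (κ m) = r m w := by
      rw [hk m, hτm, max_eq_right hlt.le]
    have h2 := hleast κ hκ (fun q => by rw [hk q]; exact le_max_left _ _) (by rw [h1])
    apply hg.inj m
    exact le_antisymm ((h2 m).trans h1.le) hν.2.2
  refine ⟨ν, hν.1, hν.2.1, hνm, hleast, ?_⟩
  intro q hq
  rw [mem_Us]
  constructor
  · rintro ⟨_, h⟩
    exact h ν hν.1 hν.2.1 ((lt_lev_iff hw ν).mpr hν.2.2)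
  · intro h
    refine ⟨hq, ?_⟩
    intro τ hτ h1 h2
    exact lt_of_lt_of_le h (hleast τ hτ h1 ((lt_lev_iff hw τ).mp h2) q)

end Pool.Agent.StabM
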