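import Pool.Agent.StabM.Flip
import Pool.Agent.StabM.Cost
import Pool.Agent.StabM.Kraft

set_option autoImplicit false

open Finset

namespace Pool.Agent.StabM

variable {n : ℕ} {S : Finset (Equiv.Perm (Fin n))} {r : Fin n → Fin n → ℤ}
  {σ : Equiv.Perm (Fin n)} {m : Fin n}

/-- a family of permutations as functions -/
def famF (S : Finset (Equiv.Perm (Fin n))) : Finset (Fin n → Fin n) :=
  S.image (fun σ : Equiv.Perm (Fin n) => fun m => σ m)

lemma card_famF (S : Finset (Equiv.Perm (Fin n))) : (famF S).card = S.card := by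
  unfold famF
  rw [Finset.card_image_of_injective]
  intro σ τ h
  ext m
  have h2 : σ m = τ m := congrFun h m
  rw [h2]

/-- an option of larger rank is unblocked -/
lemma option_first (hg : Good S r) (hσ : σ ∈ S) {τ : Equiv.Perm (Fin n)} (hτ : τ ∈ S)
    (π : Equiv.Perm (Fin n)) (hag : ∀ j, π j < π m → τ j = σ j) (h : r m (σ m) < r m (τ m)) :
    τ m ∈ low S r σ m ∧ π ∈ first m (Us S r σ m (pos S r σ m (τ m))) := by
  have h1 : τ m ∈ low S r σ m := mem_low.mpr ⟨⟨τ, hτ, rfl⟩, h⟩
  refine ⟨h1, ?_⟩
  rw [mem_first]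
  intro x hx
  obtain ⟨κ, hκ, hk⟩ := hg.max σ hσ τ hτ
  rw [mem_Us] at hx
  have h2 := hx.2 κ hκ (fun q => by rw [hk q]; exact le_max_left _ _) (by
    rw [lt_lev_iff h1, hk m]
    exact le_max_right _ _)
  by_contra hcon
  rw [not_lt] at hcon
  rcases lt_or_eq_of_le hcon with h3 | h3
  · have h4 := hag x h3
    rw [hk x, h4, max_self] at h2
    exact lt_irrefl _ h2
  · exact hx.1 (π.injective h3)

theorem cntP_le_lat (hg : Good S r) (hσ : σ ∈ S) (m : Fin n) (π : Equiv.Perm (Fin n)) :
    cntP π (famF S) σ m ≤ 1 + run m (low S r σ m).card (Us S r σ m) π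
      + run m (low S (rev r) σ m).card (Us S (rev r) σ m) π := by
  classical
  set A := low S r σ m with hA
  set B := low S (rev r) σ m with hB
  set A' := A.filter (fun w => π ∈ first m (Us S r σ m (pos S r σ m w))) with hA'
  set B' := B.filter (fun w => π ∈ first m (Us S (rev r) σ m (pos S (rev r) σ m w))) with hB'
  have hsub : (((famF S).filter (fun g => ∀ j, π j < π m → g j = σ j)).image (fun g => g m)) ⊆
      {σ m} ∪ A' ∪ B' := by
    intro w hw
    rw [Finset.mem_image] at hw
    obtain ⟨g, hg', rfl⟩ := hw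
    rw [Finset.mem_filter, famF, Finset.mem_image] at hg'
    obtain ⟨⟨τ, hτ, rfl⟩, hag⟩ := hg'
    simp only at hag
    rw [Finset.mem_union, Finset.mem_union, Finset.mem_singleton]
    rcases lt_trichotomy (r m (σ m)) (r m (τ m)) with h | h | h
    · left; right
      rw [hA', Finset.mem_filter]
      exact option_first hg hσ hτ π hag h
    · left; left
      exact (hg.inj m h).symm
    · right
      rw [hB', Finset.mem_filter]
      exact option_first hg.rev hσ hτ π hag (neg_lt_neg h)
  have hA'c : A'.card ≤ run m A.card (Us S r σ m) π := by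
    unfold run
    refine Finset.card_le_card_of_injOn (pos S r σ m) ?_ ?_
    · intro w hw
      rw [Finset.mem_coe, hA', Finset.mem_filter] at hw
      rw [Finset.mem_coe, Finset.mem_filter, Finset.mem_range]
      exact ⟨pos_lt_card hw.1, hw.2⟩
    · exact (pos_injOn hg).mono (by
        intro x hx
        rw [Finset.mem_coe, hA', Finset.mem_filter] at hx
        exact hx.1)
  have hB'c : B'.card ≤ run m B.card (Us S (rev r) σ m) π := by
    unfold run
    refine Finset.card_le_card_of_injOn (pos S (rev r) σ m) ?_ ?_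
    · intro w hw
      rw [Finset.mem_coe, hB', Finset.mem_filter] at hw
      rw [Finset.mem_coe, Finset.mem_filter, Finset.mem_range]
      exact ⟨pos_lt_card hw.1, hw.2⟩
    · exact (pos_injOn hg.rev).mono (by
        intro x hx
        rw [Finset.mem_coe, hB', Finset.mem_filter] at hx
        exact hx.1)
  unfold cntP
  calc _ ≤ ({σ m} ∪ A' ∪ B').card := Finset.card_le_card hsub
    _ ≤ ({σ m} ∪ A').card + B'.card := Finset.card_union_le _ _
    _ ≤ ({σ m} : Finset (Fin n)).card + A'.card + B'.card := by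
        have := Finset.card_union_le ({σ m} : Finset (Fin n)) A'
        omega
    _ ≤ _ := by
        rw [Finset.card_singleton]
        omega

theorem sum_log_cntP_lat (hg : Good S r) (hσ : σ ∈ S) (m : Fin n) :
    ∑ π : Equiv.Perm (Fin n), Real.log (cntP π (famF S) σ m) ≤
      (Nat.factorial n : ℝ) * costF (low S r σ m).card (low S (rev r) σ m).card
        (fun i => (Us S r σ m i).card) (fun j => (Us S (rev r) σ m j).card)
        (fun i j => (Us S r σ m i ∪ Us S (rev r) σ m j).card) := by
  have hmem : (σ : Fin n → Fin n) ∈ famF S := by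
    unfold famF
    exact Finset.mem_image_of_mem _ hσ
  have h1 : ∀ π : Equiv.Perm (Fin n), Real.log (cntP π (famF S) σ m) ≤
      Real.log (1 + (run m (low S r σ m).card (Us S r σ m) π : ℝ)
        + run m (low S (rev r) σ m).card (Us S (rev r) σ m) π) := by
    intro π
    apply Real.log_le_log
    · exact_mod_cast cntP_pos π _ _ hmem m
    · exact_mod_cast cntP_le_lat hg hσ m π
  refine (Finset.sum_le_sum (fun π _ => h1 π)).trans ?_
  rw [sum_log_run m _ _ _ _ (fun i => Us_mono (Nat.le_succ i)) (fun i => Us_mono (Nat.le_succ i))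
    (fun i _ h => (mem_Us.mp h).1 rfl) (fun i _ h => (mem_Us.mp h).1 rfl)]

/-- averaging over all orders -/
theorem card_le_of_cost_lat (S : Finset (Equiv.Perm (Fin n))) (C : ℝ)
    (hC : ∑ σ ∈ S, ∑ m : Fin n,
      ∑ π : Equiv.Perm (Fin n), Real.log (cntP π (famF S) σ m) ≤
      (Nat.factorial n : ℝ) * ((S.card : ℝ) * ((n : ℝ) * C))) :
    (S.card : ℝ) ≤ Real.exp ((n : ℝ) * C) := by
  rcases Finset.eq_empty_or_nonempty S with h | h
  · rw [h, Finset.card_empty, Nat.cast_zero]
    exact (Real.exp_pos _).le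
  · have hF : (famF S).Nonempty := by
      unfold famF
      exact h.image _
    have hc : (0 : ℝ) < S.card := by exact_mod_cast Finset.card_pos.mpr h
    have h1 : ∀ π : Equiv.Perm (Fin n), (S.card : ℝ) * Real.log S.card ≤
        ∑ σ ∈ S, ∑ m : Fin n, Real.log (cntP π (famF S) σ m) := by
      intro π
      have h2 := log_card_le π (famF S) hF
      rw [card_famF] at h2
      refine h2.trans (le_of_eq ?_)
      conv_lhs => rw [famF]
      rw [Finset.sum_image]
      · rfl
      · intro σ _ τ _ hst
        ext m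
        have h3 : σ m = τ m := congrFun hst m
        rw [h3]
    have h4 := Finset.sum_le_sum (fun (π : Equiv.Perm (Fin n)) (_ : π ∈ Finset.univ) => h1 π)
    rw [Finset.sum_const, Finset.card_univ, Fintype.card_perm, Fintype.card_fin, nsmul_eq_mul,
      Finset.sum_comm] at h4
    have h5 : ∑ σ ∈ S, ∑ π : Equiv.Perm (Fin n), ∑ m : Fin n,
        Real.log (cntP π (famF S) σ m) = ∑ σ ∈ S, ∑ m : Fin n,
        ∑ π : Equiv.Perm (Fin n), Real.log (cntP π (famF S) σ m) :=
      Finset.sum_congr rfl (fun σ _ => Finset.sum_comm)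
    rw [h5] at h4
    have h6 := h4.trans hC
    have hn : (0 : ℝ) < (Nat.factorial n : ℝ) := by exact_mod_cast Nat.factorial_pos n
    have h7 := le_of_mul_le_mul_left h6 hn
    have h8 := le_of_mul_le_mul_left h7 hc
    rw [← Real.exp_log hc]
    exact Real.exp_le_exp.mpr h8

end Pool.Agent.StabM
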