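import Mathlib

set_option autoImplicit false

open Finset

namespace Pool.Agent.StabM

/-- `σ` (men to women) is stable; smaller values of `mp m w` and `wp w m` are better -/
def Stable {n : ℕ} (mp wp : Fin n → Equiv.Perm (Fin n)) (σ : Equiv.Perm (Fin n)) : Prop :=
  ∀ m w : Fin n, ¬ (mp m w < mp m (σ m) ∧ wp w m < wp w (σ.symm w))

instance {n : ℕ} (mp wp : Fin n → Equiv.Perm (Fin n)) (σ : Equiv.Perm (Fin n)) :
    Decidable (Stable mp wp σ) := by unfold Stable; infer_instance

variable {n : ℕ} {mp wp : Fin n → Equiv.Perm (Fin n)}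

/-- a man who prefers `w` to his partner is not preferred by `w` -/
lemma Stable.woman {σ : Equiv.Perm (Fin n)} (hσ : Stable mp wp σ) {m w : Fin n}
    (h : mp m w < mp m (σ m)) : wp w (σ.symm w) < wp w m := by
  have h1 := hσ m w
  rw [not_and] at h1
  have h2 := not_lt.mp (h1 h)
  refine lt_of_le_of_ne h2 ?_
  intro h3
  have h4 : σ.symm w = m := (wp w).injective h3
  have h5 : σ m = w := by rw [← h4]; simp
  rw [h5] at h
  exact lt_irrefl _ h

/-- one step: if `m` prefers `σ` to `τ`, then the man with `τ`-partner `σ m` also does -/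
lemma step_mem {σ τ : Equiv.Perm (Fin n)} (hσ : Stable mp wp σ) (hτ : Stable mp wp τ) {m : Fin n}
    (h : mp m (σ m) < mp m (τ m)) :
    mp (τ.symm (σ m)) (σ (τ.symm (σ m))) < mp (τ.symm (σ m)) (τ (τ.symm (σ m))) := by
  have h1 : wp (σ m) (τ.symm (σ m)) < wp (σ m) m := hτ.woman h
  rw [Equiv.apply_symm_apply]
  by_contra hcon
  rw [not_lt] at hcon
  rcases lt_or_eq_of_le hcon with h2 | h2
  · have h3 := hσ.woman h2
    rw [Equiv.symm_apply_apply] at h3
    exact absurd h3 (not_lt.mpr h1.le)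
  · have h3 : σ m = σ (τ.symm (σ m)) := (mp _).injective h2
    have h4 : m = τ.symm (σ m) := σ.injective h3
    rw [← h4] at h1
    exact lt_irrefl _ h1

/-- the men preferring `σ` to `τ` -/
def pref (mp : Fin n → Equiv.Perm (Fin n)) (σ τ : Equiv.Perm (Fin n)) : Finset (Fin n) :=
  Finset.univ.filter (fun m => mp m (σ m) < mp m (τ m))

lemma mem_pref (σ τ : Equiv.Perm (Fin n)) (m : Fin n) :
    m ∈ pref mp σ τ ↔ mp m (σ m) < mp m (τ m) := by simp [pref]

lemma image_pref {σ τ : Equiv.Perm (Fin n)} (hσ : Stable mp wp σ) (hτ : Stable mp wp τ) :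
    (pref mp σ τ).image (fun m => τ.symm (σ m)) = pref mp σ τ := by
  apply Finset.eq_of_subset_of_card_le
  · intro x hx
    rw [Finset.mem_image] at hx
    obtain ⟨m, hm, rfl⟩ := hx
    rw [mem_pref] at hm ⊢
    exact step_mem hσ hτ hm
  · rw [Finset.card_image_of_injective]
    intro a b h
    exact σ.injective (τ.symm.injective h)

/-- if `m` prefers `σ` to `τ` then so does the `σ`-partner of `τ m` -/
lemma back_mem {σ τ : Equiv.Perm (Fin n)} (hσ : Stable mp wp σ) (hτ : Stable mp wp τ) {m : Fin n}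
    (h : mp m (σ m) < mp m (τ m)) :
    mp (σ.symm (τ m)) (σ (σ.symm (τ m))) < mp (σ.symm (τ m)) (τ (σ.symm (τ m))) := by
  have h1 : m ∈ pref mp σ τ := (mem_pref σ τ m).mpr h
  rw [← image_pref hσ hτ, Finset.mem_image] at h1
  obtain ⟨x, hx, hxm⟩ := h1
  have h2 : σ.symm (τ m) = x := by
    rw [← hxm]; simp
  rw [h2]
  exact (mem_pref σ τ x).mp hx

/-- if `m` prefers `σ` to `τ`, then `τ m` prefers `τ` to `σ` -/
lemma woman_of_pref {σ τ : Equiv.Perm (Fin n)} (hσ : Stable mp wp σ) (hτ : Stable mp wp τ)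
    {m : Fin n} (h : mp m (σ m) < mp m (τ m)) :
    wp (τ m) m < wp (τ m) (σ.symm (τ m)) := by
  have h1 := back_mem hσ hτ h
  have h2 := hτ.woman h1
  rw [Equiv.apply_symm_apply, Equiv.symm_apply_apply] at h2
  exact h2

/-- the position of `σ m` relative to a stable partner `τ m` of `m` is read off from the
`σ`-partner of `τ m` -/
theorem tri {σ τ : Equiv.Perm (Fin n)} (hσ : Stable mp wp σ) (hτ : Stable mp wp τ)
    {m : Fin n} (hne : σ m ≠ τ m) :
    mp m (σ m) < mp m (τ m) ↔ wp (τ m) m < wp (τ m) (σ.symm (τ m)) := by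
  constructor
  · exact woman_of_pref hσ hτ
  · intro h
    by_contra hcon
    rw [not_lt] at hcon
    have h2 : mp m (τ m) < mp m (σ m) :=
      lt_of_le_of_ne hcon (fun h3 => hne ((mp m).injective h3).symm)
    have h3 := hσ.woman h2
    exact absurd h (not_lt.mpr h3.le)

end Pool.Agent.StabM
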