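import Pool.Agent.StabM.Idx
import Pool.Agent.StabM.Cost
import Pool.Agent.StabM.Kraft
import Pool.Agent.StabM.Stable

set_option autoImplicit false

open Finset

namespace Pool.Agent.StabM

variable {n : ℕ}

/-- the stable matchings -/
def stab (mp wp : Fin n → Equiv.Perm (Fin n)) : Finset (Equiv.Perm (Fin n)) :=
  Finset.univ.filter (fun σ => Stable mp wp σ)

lemma mem_stab (mp wp : Fin n → Equiv.Perm (Fin n)) (σ : Equiv.Perm (Fin n)) :
    σ ∈ stab mp wp ↔ Stable mp wp σ := by simp [stab]

/-- the stable matchings as functions -/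
def stabF (mp wp : Fin n → Equiv.Perm (Fin n)) : Finset (Fin n → Fin n) :=
  (stab mp wp).image (fun σ : Equiv.Perm (Fin n) => fun m => σ m)

lemma card_stabF (mp wp : Fin n → Equiv.Perm (Fin n)) :
    (stabF mp wp).card = (stab mp wp).card := by
  unfold stabF
  rw [Finset.card_image_of_injective]
  intro σ τ h
  ext m
  have h2 : σ m = τ m := congrFun h m
  rw [h2]

/-- stable partners of `m` that he likes less than `σ m` -/
def lowP (mp wp : Fin n → Equiv.Perm (Fin n)) (σ : Equiv.Perm (Fin n)) (m : Fin n) :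
    Finset (Fin n) :=
  ((stab mp wp).image (fun τ => τ m)).filter (fun w => mp m (σ m) < mp m w)

/-- stable partners of `m` that he likes more than `σ m` -/
def upP (mp wp : Fin n → Equiv.Perm (Fin n)) (σ : Equiv.Perm (Fin n)) (m : Fin n) :
    Finset (Fin n) :=
  ((stab mp wp).image (fun τ => τ m)).filter (fun w => mp m w < mp m (σ m))

def keyL (mp : Fin n → Equiv.Perm (Fin n)) (m : Fin n) (w : Fin n) : ℕ := (mp m w : ℕ)
def keyU (mp : Fin n → Equiv.Perm (Fin n)) (m : Fin n) (w : Fin n) : ℕ := n - (mp m w : ℕ)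

lemma keyL_inj (mp : Fin n → Equiv.Perm (Fin n)) (m : Fin n) : Function.Injective (keyL mp m) := by
  intro a b h
  exact (mp m).injective (Fin.ext h)

lemma keyU_inj (mp : Fin n → Equiv.Perm (Fin n)) (m : Fin n) : Function.Injective (keyU mp m) := by
  intro a b h
  apply (mp m).injective
  apply Fin.ext
  unfold keyU at h
  have h1 := (mp m a).isLt
  have h2 := (mp m b).isLt
  omega

/-- blocking sets on the low side -/
def blL (mp wp : Fin n → Equiv.Perm (Fin n)) (σ : Equiv.Perm (Fin n)) (m : Fin n) (i : ℕ) :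
    Finset (Fin n) :=
  ((lowP mp wp σ m).filter (fun w => idx (lowP mp wp σ m) (keyL mp m) w ≤ i)).image σ.symm

/-- blocking sets on the high side -/
def blU (mp wp : Fin n → Equiv.Perm (Fin n)) (σ : Equiv.Perm (Fin n)) (m : Fin n) (i : ℕ) :
    Finset (Fin n) :=
  ((upP mp wp σ m).filter (fun w => idx (upP mp wp σ m) (keyU mp m) w ≤ i)).image σ.symm

lemma blL_mono (mp wp : Fin n → Equiv.Perm (Fin n)) (σ : Equiv.Perm (Fin n)) (m : Fin n) (i : ℕ) :
    blL mp wp σ m i ⊆ blL mp wp σ m (i + 1) := by
  unfold blL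
  apply Finset.image_subset_image
  intro x hx
  rw [Finset.mem_filter] at hx ⊢
  exact ⟨hx.1, by omega⟩

lemma blU_mono (mp wp : Fin n → Equiv.Perm (Fin n)) (σ : Equiv.Perm (Fin n)) (m : Fin n) (i : ℕ) :
    blU mp wp σ m i ⊆ blU mp wp σ m (i + 1) := by
  unfold blU
  apply Finset.image_subset_image
  intro x hx
  rw [Finset.mem_filter] at hx ⊢
  exact ⟨hx.1, by omega⟩

lemma card_blL (mp wp : Fin n → Equiv.Perm (Fin n)) (σ : Equiv.Perm (Fin n)) (m : Fin n) (i : ℕ)
    (hi : i < (lowP mp wp σ m).card) : (blL mp wp σ m i).card = i + 1 := by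
  unfold blL
  rw [Finset.card_image_of_injective _ σ.symm.injective]
  exact card_idx_le _ _ (keyL_inj mp m) hi

lemma card_blU (mp wp : Fin n → Equiv.Perm (Fin n)) (σ : Equiv.Perm (Fin n)) (m : Fin n) (i : ℕ)
    (hi : i < (upP mp wp σ m).card) : (blU mp wp σ m i).card = i + 1 := by
  unfold blU
  rw [Finset.card_image_of_injective _ σ.symm.injective]
  exact card_idx_le _ _ (keyU_inj mp m) hi

lemma disj_bl (mp wp : Fin n → Equiv.Perm (Fin n)) (σ : Equiv.Perm (Fin n)) (m : Fin n) (i j : ℕ) :
    Disjoint (blL mp wp σ m i) (blU mp wp σ m j) := by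
  unfold blL blU
  rw [Finset.disjoint_image σ.symm.injective]
  rw [Finset.disjoint_left]
  intro x hx hy
  rw [Finset.mem_filter] at hx hy
  have h1 := (Finset.mem_filter.mp hx.1).2
  have h2 := (Finset.mem_filter.mp hy.1).2
  exact absurd h1 (not_lt.mpr h2.le)

lemma notMem_blL (mp wp : Fin n → Equiv.Perm (Fin n)) (σ : Equiv.Perm (Fin n)) (m : Fin n) (i : ℕ) :
    m ∉ blL mp wp σ m i := by
  unfold blL
  intro h
  rw [Finset.mem_image] at h
  obtain ⟨w, hw, hwm⟩ := h
  rw [Finset.mem_filter] at hw
  have h1 := (Finset.mem_filter.mp hw.1).2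
  have h2 : σ m = w := by rw [← hwm]; simp
  rw [h2] at h1
  exact lt_irrefl _ h1

lemma notMem_blU (mp wp : Fin n → Equiv.Perm (Fin n)) (σ : Equiv.Perm (Fin n)) (m : Fin n) (i : ℕ) :
    m ∉ blU mp wp σ m i := by
  unfold blU
  intro h
  rw [Finset.mem_image] at h
  obtain ⟨w, hw, hwm⟩ := h
  rw [Finset.mem_filter] at hw
  have h1 := (Finset.mem_filter.mp hw.1).2
  have h2 : σ m = w := by rw [← hwm]; simp
  rw [h2] at h1
  exact lt_irrefl _ h1

variable {mp wp : Fin n → Equiv.Perm (Fin n)}

/-- key fact: an agreeing matching cannot cross a woman whose partner is revealed -/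
lemma no_cross_low {σ τ ν : Equiv.Perm (Fin n)} (hσ : Stable mp wp σ) (hτ : Stable mp wp τ)
    (hν : Stable mp wp ν) {m : Fin n} (hag : τ (σ.symm (ν m)) = ν m)
    (h : mp m (σ m) < mp m (ν m)) : mp m (τ m) < mp m (ν m) := by
  have hne : σ m ≠ ν m := fun e => by rw [e] at h; exact lt_irrefl _ h
  have h1 := (tri hσ hν hne).mp h
  have hs : τ.symm (ν m) = σ.symm (ν m) := by
    rw [Equiv.symm_apply_eq]; exact hag.symm
  have hne2 : τ m ≠ ν m := by
    intro e
    have h2 : τ.symm (ν m) = m := by rw [← e]; simp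
    rw [hs] at h2
    apply hne
    rw [Equiv.symm_apply_eq] at h2
    exact h2.symm
  refine (tri hτ hν hne2).mpr ?_
  rw [hs]
  exact h1

lemma no_cross_up {σ τ ν : Equiv.Perm (Fin n)} (hσ : Stable mp wp σ) (hτ : Stable mp wp τ)
    (hν : Stable mp wp ν) {m : Fin n} (hag : τ (σ.symm (ν m)) = ν m)
    (h : mp m (ν m) < mp m (σ m)) : mp m (ν m) < mp m (τ m) := by
  have hne : σ m ≠ ν m := fun e => by rw [e] at h; exact lt_irrefl _ h
  have h1 : ¬ (wp (ν m) m < wp (ν m) (σ.symm (ν m))) := by
    intro h2
    exact absurd h (not_lt.mpr ((tri hσ hν hne).mpr h2).le)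
  have hs : τ.symm (ν m) = σ.symm (ν m) := by
    rw [Equiv.symm_apply_eq]; exact hag.symm
  have hne2 : τ m ≠ ν m := by
    intro e
    have h2 : τ.symm (ν m) = m := by rw [← e]; simp
    rw [hs] at h2
    apply hne
    rw [Equiv.symm_apply_eq] at h2
    exact h2.symm
  rcases lt_trichotomy (mp m (ν m)) (mp m (τ m)) with h3 | h3 | h3
  · exact h3
  · exact absurd ((mp m).injective h3).symm hne2
  · exfalso
    apply h1
    rw [← hs]
    exact (tri hτ hν hne2).mp h3

theorem cntP_le {σ : Equiv.Perm (Fin n)} (hσ : Stable mp wp σ) (m : Fin n)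
    (π : Equiv.Perm (Fin n)) :
    cntP π (stabF mp wp) σ m ≤ 1 + run m (lowP mp wp σ m).card (blL mp wp σ m) π
      + run m (upP mp wp σ m).card (blU mp wp σ m) π := by
  classical
  set A := lowP mp wp σ m with hA
  set B := upP mp wp σ m with hB
  set A' := A.filter (fun w => π ∈ first m (blL mp wp σ m (idx A (keyL mp m) w))) with hA'
  set B' := B.filter (fun w => π ∈ first m (blU mp wp σ m (idx B (keyU mp m) w))) with hB'
  have hsub : (((stabF mp wp).filter (fun g => ∀ j, π j < π m → g j = σ j)).image (fun g => g m)) ⊆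
      {σ m} ∪ A' ∪ B' := by
    intro w hw
    rw [Finset.mem_image] at hw
    obtain ⟨g, hg, rfl⟩ := hw
    rw [Finset.mem_filter, stabF, Finset.mem_image] at hg
    obtain ⟨⟨τ, hτ, rfl⟩, hag⟩ := hg
    simp only at hag
    rw [mem_stab] at hτ
    rw [Finset.mem_union, Finset.mem_union, Finset.mem_singleton]
    rcases lt_trichotomy (mp m (σ m)) (mp m (τ m)) with h | h | h
    · left; right
      rw [hA', Finset.mem_filter]
      have hτA : τ m ∈ A := by
        rw [hA, lowP, Finset.mem_filter]
        exact ⟨Finset.mem_image_of_mem _ ((mem_stab _ _ _).mpr hτ), h⟩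
      refine ⟨hτA, ?_⟩
      rw [mem_first]
      intro x hx
      rw [blL, Finset.mem_image] at hx
      obtain ⟨v, hv, rfl⟩ := hx
      rw [Finset.mem_filter] at hv
      have hkey := key_le_of_idx A (keyL mp m) hτA hv.2
      have hv2 := hv.1
      rw [lowP, Finset.mem_filter, Finset.mem_image] at hv2
      obtain ⟨⟨ν, hν, rfl⟩, hlt⟩ := hv2
      rw [mem_stab] at hν
      by_contra hcon
      rw [not_lt] at hcon
      rcases lt_or_eq_of_le hcon with h2 | h2
      · have h3 := hag _ h2
        rw [Equiv.apply_symm_apply] at h3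
        have h4 := no_cross_low hσ hτ hν h3 hlt
        unfold keyL at hkey
        exact absurd h4 (not_lt.mpr hkey)
      · have h3 := π.injective h2
        have h4 : σ m = ν m := by
          rw [Equiv.symm_apply_eq] at h3
          exact h3.symm
        rw [h4] at hlt
        exact lt_irrefl _ hlt
    · left; left
      exact ((mp m).injective h).symm
    · right
      rw [hB', Finset.mem_filter]
      have hτB : τ m ∈ B := by
        rw [hB, upP, Finset.mem_filter]
        exact ⟨Finset.mem_image_of_mem _ ((mem_stab _ _ _).mpr hτ), h⟩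
      refine ⟨hτB, ?_⟩
      rw [mem_first]
      intro x hx
      rw [blU, Finset.mem_image] at hx
      obtain ⟨v, hv, rfl⟩ := hx
      rw [Finset.mem_filter] at hv
      have hkey := key_le_of_idx B (keyU mp m) hτB hv.2
      have hv2 := hv.1
      rw [upP, Finset.mem_filter, Finset.mem_image] at hv2
      obtain ⟨⟨ν, hν, rfl⟩, hlt⟩ := hv2
      rw [mem_stab] at hν
      by_contra hcon
      rw [not_lt] at hcon
      rcases lt_or_eq_of_le hcon with h2 | h2
      · have h3 := hag _ h2
        rw [Equiv.apply_symm_apply] at h3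
        have h4 := no_cross_up hσ hτ hν h3 hlt
        unfold keyU at hkey
        have h5 := (mp m (ν m)).isLt
        have h6 := (mp m (τ m)).isLt
        rw [Fin.lt_def] at h4
        omega
      · have h3 := π.injective h2
        have h4 : σ m = ν m := by
          rw [Equiv.symm_apply_eq] at h3
          exact h3.symm
        rw [h4] at hlt
        exact lt_irrefl _ hlt
  have hA'c : A'.card ≤ run m A.card (blL mp wp σ m) π := by
    unfold run
    refine Finset.card_le_card_of_injOn (idx A (keyL mp m)) ?_ ?_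
    · intro w hw
      rw [Finset.mem_coe, hA', Finset.mem_filter] at hw
      rw [Finset.mem_coe, Finset.mem_filter, Finset.mem_range]
      exact ⟨idx_lt_card A _ hw.1, hw.2⟩
    · exact (idx_injOn A _ (keyL_inj mp m)).mono (by
        intro x hx
        rw [Finset.mem_coe, hA', Finset.mem_filter] at hx
        exact hx.1)
  have hB'c : B'.card ≤ run m B.card (blU mp wp σ m) π := by
    unfold run
    refine Finset.card_le_card_of_injOn (idx B (keyU mp m)) ?_ ?_
    · intro w hw
      rw [Finset.mem_coe, hB', Finset.mem_filter] at hw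
      rw [Finset.mem_coe, Finset.mem_filter, Finset.mem_range]
      exact ⟨idx_lt_card B _ hw.1, hw.2⟩
    · exact (idx_injOn B _ (keyU_inj mp m)).mono (by
        intro x hx
        rw [Finset.mem_coe, hB', Finset.mem_filter] at hx
        exact hx.1)
  unfold cntP
  calc _ ≤ ({σ m} ∪ A' ∪ B').card := Finset.card_le_card hsub
    _ ≤ ({σ m} ∪ A').card + B'.card := Finset.card_union_le _ _
    _ ≤ ({σ m} : Finset (Fin n)).card + A'.card + B'.card := by
        have := Finset.card_union_le ({σ m} : Finset (Fin n)) A'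
        omega
    _ ≤ _ := by
        rw [Finset.card_singleton]
        omega

/-- cost with the plain blocking sets -/
noncomputable def TT (p q : ℕ) : ℝ :=
  costF p q (fun i => i + 1) (fun j => j + 1) (fun i j => i + j + 2)

theorem sum_log_cntP {σ : Equiv.Perm (Fin n)} (hσ : Stable mp wp σ) (m : Fin n) :
    ∑ π : Equiv.Perm (Fin n), Real.log (cntP π (stabF mp wp) σ m) ≤
      (Nat.factorial n : ℝ) * TT (lowP mp wp σ m).card (upP mp wp σ m).card := by
  have hmem : (σ : Fin n → Fin n) ∈ stabF mp wp := by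
    unfold stabF
    exact Finset.mem_image_of_mem _ ((mem_stab _ _ _).mpr hσ)
  have h1 : ∀ π : Equiv.Perm (Fin n), Real.log (cntP π (stabF mp wp) σ m) ≤
      Real.log (1 + (run m (lowP mp wp σ m).card (blL mp wp σ m) π : ℝ)
        + run m (upP mp wp σ m).card (blU mp wp σ m) π) := by
    intro π
    apply Real.log_le_log
    · exact_mod_cast cntP_pos π _ _ hmem m
    · exact_mod_cast cntP_le hσ m π
  refine (Finset.sum_le_sum (fun π _ => h1 π)).trans ?_
  rw [sum_log_run m _ _ _ _ (blL_mono mp wp σ m) (blU_mono mp wp σ m)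
    (fun i _ => notMem_blL mp wp σ m i) (fun i _ => notMem_blU mp wp σ m i)]
  apply le_of_eq
  congr 1
  unfold TT costF
  congr 1
  · congr 1
    · refine Finset.sum_congr rfl ?_
      intro i hi
      simp only
      rw [card_blL _ _ _ _ _ (Finset.mem_range.mp hi)]
    · refine Finset.sum_congr rfl ?_
      intro i hi
      simp only
      rw [card_blU _ _ _ _ _ (Finset.mem_range.mp hi)]
  · refine Finset.sum_congr rfl ?_
    intro i hi
    refine Finset.sum_congr rfl ?_
    intro j hj
    simp only
    rw [Finset.card_union_of_disjoint (disj_bl _ _ _ _ _ _),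
      card_blL _ _ _ _ _ (Finset.mem_range.mp hi), card_blU _ _ _ _ _ (Finset.mem_range.mp hj)]
    congr 2
    push_cast
    ring

end Pool.Agent.StabM
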