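import Pool.Agent.StabM.Gl
import Pool.Agent.StabM.Local

set_option autoImplicit false

open Finset

namespace Pool.Agent.StabM

lemma TT_eq (p q : ℕ) : TT p q = ∑ i ∈ range p, gl (i + 1) / ((i : ℝ) + 2)
    + ∑ j ∈ range q, gl (j + 1) / ((j : ℝ) + 2)
    - ∑ i ∈ range p, ∑ j ∈ range q, dl (i + j) / ((i : ℝ) + j + 3) := by
  unfold TT costF
  congr 1
  · congr 1
    · refine Finset.sum_congr rfl ?_
      intro i _
      push_cast
      congr 1
      ring
    · refine Finset.sum_congr rfl ?_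
      intro i _
      push_cast
      congr 1
      ring
  · refine Finset.sum_congr rfl ?_
    intro i _
    refine Finset.sum_congr rfl ?_
    intro j _
    push_cast
    congr 1
    ring

lemma TT_symm (p q : ℕ) : TT p q = TT q p := by
  rw [TT_eq, TT_eq, Finset.sum_comm]
  rw [add_comm (∑ i ∈ range p, gl (i + 1) / ((i : ℝ) + 2))]
  congr 1
  refine Finset.sum_congr rfl ?_
  intro i _
  refine Finset.sum_congr rfl ?_
  intro j _
  rw [add_comm i j]
  congr 1
  ring

lemma TT_succ (p q : ℕ) : TT p q ≤ TT (p + 1) q := by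
  rw [TT_eq, TT_eq, Finset.sum_range_succ, Finset.sum_range_succ]
  have h1 : ∑ j ∈ range q, dl (p + j) / ((p : ℝ) + j + 3) ≤ gl (p + 1) / ((p : ℝ) + 2) := by
    have h2 : ∀ j ∈ range q, dl (p + j) / ((p : ℝ) + j + 3) ≤ dl (p + j) / ((p : ℝ) + 2) := by
      intro j _
      apply div_le_div_of_nonneg_left (dl_nonneg _) (by positivity)
      have : (0 : ℝ) ≤ j := Nat.cast_nonneg j
      linarith
    refine (Finset.sum_le_sum h2).trans ?_
    rw [← Finset.sum_div, sum_dl]
    apply div_le_div_of_nonneg_right _ (by positivity)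
    have := gl_nonneg (p + q + 1)
    linarith
  linarith

lemma TT_mono_left {p p' : ℕ} (h : p ≤ p') (q : ℕ) : TT p q ≤ TT p' q := by
  induction h with
  | refl => exact le_refl _
  | step _ ih => exact ih.trans (TT_succ _ _)

lemma TT_le_diag {p q K : ℕ} (hp : p ≤ K) (hq : q ≤ K) : TT p q ≤ TT K K := by
  refine (TT_mono_left hp q).trans ?_
  rw [TT_symm K q]
  exact TT_mono_left hq K

/-- bound for the diagonal value -/
noncomputable def VV (K : ℕ) : ℝ :=
  2 * ∑ i ∈ range K, gl (i + 1) / ((i : ℝ) + 2)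
    - ∑ k ∈ range K, ((k : ℝ) + 1) * (dl k / ((k : ℝ) + 3))

lemma TT_le_VV (K : ℕ) : TT K K ≤ VV K := by
  rw [TT_eq]
  unfold VV
  have h1 : ∑ k ∈ range K, ((k : ℝ) + 1) * (dl k / ((k : ℝ) + 3)) =
      ∑ m ∈ range K, ∑ k ∈ range (m + 1), dl (k + (m - k)) / (((k : ℝ) + ((m - k : ℕ) : ℝ)) + 3) := by
    refine Finset.sum_congr rfl ?_
    intro m _
    have : ∀ k ∈ range (m + 1), dl (k + (m - k)) / (((k : ℝ) + ((m - k : ℕ) : ℝ)) + 3) =
        dl m / ((m : ℝ) + 3) := by
      intro k hk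
      have hk' : k ≤ m := Nat.lt_succ_iff.mp (Finset.mem_range.mp hk)
      rw [Nat.add_sub_cancel' hk', ← Nat.cast_add, Nat.add_sub_cancel' hk']
    rw [Finset.sum_congr rfl this, Finset.sum_const, Finset.card_range, nsmul_eq_mul]
    push_cast
    ring
  rw [h1, Finset.sum_range_diag_flip K (fun i j => dl (i + j) / ((i : ℝ) + (j : ℝ) + 3))]
  have h2 : ∑ m ∈ range K, ∑ k ∈ range (K - m), dl (m + k) / ((m : ℝ) + (k : ℝ) + 3) ≤
      ∑ i ∈ range K, ∑ j ∈ range K, dl (i + j) / ((i : ℝ) + j + 3) := by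
    refine Finset.sum_le_sum ?_
    intro m _
    refine Finset.sum_le_sum_of_subset_of_nonneg ?_ ?_
    · intro x hx
      rw [Finset.mem_range] at hx ⊢
      omega
    · intro i _ _
      exact div_nonneg (dl_nonneg _) (by positivity)
  linarith

lemma VV_eq (K : ℕ) : VV K = ∑ i ∈ range K, 2 * gl (i + 1) / ((i : ℝ) + 3)
    + (K : ℝ) / ((K : ℝ) + 2) * gl (K + 1) := by
  induction K with
  | zero => simp [VV]
  | succ K ih =>
    have h1 : VV (K + 1) = VV K + 2 * (gl (K + 1) / ((K : ℝ) + 2))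
        - ((K : ℝ) + 1) * (dl K / ((K : ℝ) + 3)) := by
      unfold VV
      rw [Finset.sum_range_succ, Finset.sum_range_succ]
      ring
    rw [h1, ih, Finset.sum_range_succ]
    unfold dl
    push_cast
    have e1 : (K : ℝ) + 2 ≠ 0 := by positivity
    have e2 : (K : ℝ) + 3 ≠ 0 := by positivity
    have e3 : (K : ℝ) + 1 + 2 = K + 3 := by ring
    rw [e3]
    have e4 : K + 1 + 1 = K + 2 := by ring
    rw [e4]
    field_simp
    ring

/-- telescoping majorant -/
noncomputable def tau (k : ℝ) : ℝ := 1 / (2 * k) + 3 / (2 * (k + 1))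

lemma tau_step (k : ℝ) (hk : 0 < k) :
    (1 / k + 1 / (k + 1)) / (k + 2) = tau k - tau (k + 1) := by
  unfold tau
  have e1 : k ≠ 0 := hk.ne'
  have e2 : k + 1 ≠ 0 := by positivity
  have e3 : k + 2 ≠ 0 := by positivity
  have e4 : k + 1 + 1 ≠ 0 := by positivity
  field_simp
  ring

lemma VV_le (K0 : ℕ) (K : ℕ) (hK : K0 ≤ K) :
    VV K ≤ ∑ i ∈ range K0, 2 * gl (i + 1) / ((i : ℝ) + 3) + tau ((K0 : ℝ) + 1) := by
  have h1 : ∑ i ∈ range K, 2 * gl (i + 1) / ((i : ℝ) + 3) + tau ((K : ℝ) + 1) ≤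
      ∑ i ∈ range K0, 2 * gl (i + 1) / ((i : ℝ) + 3) + tau ((K0 : ℝ) + 1) := by
    induction hK with
    | refl => exact le_refl _
    | @step M _ ih =>
      refine le_trans ?_ ih
      rw [Finset.sum_range_succ]
      have h2 := gl_le_trap (k := M + 1) (by omega)
      have h3 := tau_step ((M : ℝ) + 1) (by positivity)
      push_cast at h2 ⊢
      have h4 : 2 * gl (M + 1) / ((M : ℝ) + 3) ≤
          (1 / ((M : ℝ) + 1) + 1 / ((M : ℝ) + 1 + 1)) / ((M : ℝ) + 1 + 2) := by
        have e : (M : ℝ) + 1 + 2 = M + 3 := by ring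
        rw [e]
        apply div_le_div_of_nonneg_right _ (by positivity)
        linarith
      linarith
  refine le_trans ?_ h1
  rw [VV_eq]
  have h2 := gl_le_trap (k := K + 1) (by omega)
  have h0 : (0 : ℝ) ≤ K := Nat.cast_nonneg K
  have h3 : (K : ℝ) / ((K : ℝ) + 2) * gl (K + 1) ≤ gl (K + 1) := by
    have : (K : ℝ) / ((K : ℝ) + 2) ≤ 1 := by
      rw [div_le_one (by positivity)]; linarith
    have h5 := gl_nonneg (K + 1)
    nlinarith
  have h4 : (1 / (((K + 1 : ℕ)) : ℝ) + 1 / ((((K + 1 : ℕ)) : ℝ) + 1)) / 2 ≤ tau ((K : ℝ) + 1) := by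
    unfold tau
    push_cast
    have e1 : (1 : ℝ) / (2 * (K + 1)) = 1 / (K + 1) / 2 := by
      rw [div_div]; congr 1; ring
    have e2 : (3 : ℝ) / (2 * (K + 1 + 1)) = 3 * (1 / (K + 1 + 1) / 2) := by
      field_simp
    rw [e1, e2]
    have : (0 : ℝ) < 1 / ((K : ℝ) + 1 + 1) := by positivity
    linarith
  linarith

lemma VV10 : ∑ i ∈ range 10, 2 * gl (i + 1) / ((i : ℝ) + 3) + tau ((10 : ℝ) + 1) ≤
    Real.log (3333 / 1000) := by
  have g1 := gl_le (k := 1) (by norm_num) (1 / 3) (by norm_num)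
  have g2 := gl_le (k := 2) (by norm_num) (1 / 5) (by norm_num)
  have g3 := gl_le (k := 3) (by norm_num) (1 / 7) (by norm_num)
  have g4 := gl_le (k := 4) (by norm_num) (1 / 9) (by norm_num)
  have g5 := gl_le (k := 5) (by norm_num) (1 / 11) (by norm_num)
  have g6 := gl_le (k := 6) (by norm_num) (1 / 13) (by norm_num)
  have g7 := gl_le (k := 7) (by norm_num) (1 / 15) (by norm_num)
  have g8 := gl_le (k := 8) (by norm_num) (1 / 17) (by norm_num)
  have g9 := gl_le (k := 9) (by norm_num) (1 / 19) (by norm_num)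
  have g10 := gl_le (k := 10) (by norm_num) (1 / 21) (by norm_num)
  have hl : (12037 : ℝ) / 10000 ≤ Real.log (3333 / 1000) := by
    have h2 := Real.log_two_gt_d9
    have h3 := log_ge (a := 2000 / 1333) (by norm_num) (1 / (4000 / 1333 + 1)) (by norm_num)
    have e : (3333 : ℝ) / 1000 = 2 * (1 + (2000 / 1333)⁻¹) := by norm_num
    rw [e, Real.log_mul (by norm_num) (by norm_num)]
    norm_num at h3 ⊢
    linarith
  refine le_trans ?_ hl
  unfold tau
  simp only [Finset.sum_range_succ, Finset.sum_range_zero]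
  norm_num at g1 g2 g3 g4 g5 g6 g7 g8 g9 g10 ⊢
  linarith

theorem TT_le (p q : ℕ) : TT p q ≤ Real.log (3333 / 1000) := by
  have h1 := TT_le_diag (p := p) (q := q) (K := p + q + 10) (by omega) (by omega)
  have h2 := TT_le_VV (p + q + 10)
  have h3 := VV_le 10 (p + q + 10) (by omega)
  have h4 := VV10
  push_cast at h3
  linarith

end Pool.Agent.StabM
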