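import Pool.Agent.StabM.Cost2
import Pool.Agent.StabM.Num

set_option autoImplicit false

open Finset

namespace Pool.Agent.StabM

/-- sizes of the first blocking sets -/
def prof (a0 a1 : ℕ) (i : ℕ) : ℕ := if i = 0 then a0 else if i = 1 then a1 else i + 1

lemma prof_zero (a0 a1 : ℕ) : prof a0 a1 0 = a0 := rfl
lemma prof_one (a0 a1 : ℕ) : prof a0 a1 1 = a1 := rfl
lemma prof_two (a0 a1 i : ℕ) : prof a0 a1 (i + 2) = i + 3 := by
  unfold prof
  rw [if_neg (by omega), if_neg (by omega)]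

/-- a row of the double sum -/
noncomputable def LL (K s : ℕ) (c : ℝ) : ℝ := ∑ j ∈ range K, dl (j + s) / ((j : ℝ) + c + 4)

lemma cc_prof (K a0 a1 b0 b1 : ℕ) : cc (K + 2) (K + 2) (prof a0 a1) (prof b0 b1) =
    2 * (∑ i ∈ range K, gl (i + 3) / ((i : ℝ) + 4)) + gl 2 / ((a1 : ℝ) + 1) +
      gl 1 / ((a0 : ℝ) + 1) + gl 2 / ((b1 : ℝ) + 1) + gl 1 / ((b0 : ℝ) + 1) -
      ((∑ i ∈ range K, ∑ j ∈ range K, dl (i + j + 4) / ((i : ℝ) + j + 7)) +
        LL K 3 a1 + LL K 2 a0 + LL K 3 b1 + LL K 2 b0 +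
        dl 2 / ((a1 : ℝ) + b1 + 1) + dl 1 / ((a1 : ℝ) + b0 + 1) + dl 1 / ((a0 : ℝ) + b1 + 1)
        + dl 0 / ((a0 : ℝ) + b0 + 1)) := by
  have h1 : ∀ c0 c1 : ℕ, ∑ i ∈ range (K + 2), gl (i + 1) / ((prof c0 c1 i : ℝ) + 1) =
      (∑ i ∈ range K, gl (i + 3) / ((i : ℝ) + 4)) + gl 2 / ((c1 : ℝ) + 1) +
      gl 1 / ((c0 : ℝ) + 1) := by
    intro c0 c1
    rw [Finset.sum_range_succ', Finset.sum_range_succ']
    congr 1
    congr 1
    refine Finset.sum_congr rfl (fun i _ => ?_)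
    have : prof c0 c1 (i + 1 + 1) = i + 3 := prof_two c0 c1 i
    rw [this]
    push_cast
    congr 1
    ring
  have h2 : ∑ i ∈ range (K + 2), ∑ j ∈ range (K + 2),
      dl (i + j) / (((prof a0 a1 i + prof b0 b1 j : ℕ) : ℝ) + 1) =
      (∑ i ∈ range K, ∑ j ∈ range K, dl (i + j + 4) / ((i : ℝ) + j + 7)) +
        LL K 3 a1 + LL K 2 a0 + LL K 3 b1 + LL K 2 b0 +
        dl 2 / ((a1 : ℝ) + b1 + 1) + dl 1 / ((a1 : ℝ) + b0 + 1) + dl 1 / ((a0 : ℝ) + b1 + 1)
        + dl 0 / ((a0 : ℝ) + b0 + 1) := by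
    rw [Finset.sum_range_succ', Finset.sum_range_succ']
    have e1 : ∀ i : ℕ, ∑ j ∈ range (K + 2),
        dl (i + 1 + 1 + j) / (((prof a0 a1 (i + 1 + 1) + prof b0 b1 j : ℕ) : ℝ) + 1) =
        (∑ j ∈ range K, dl (i + j + 4) / ((i : ℝ) + j + 7)) +
        dl (i + 3) / ((i : ℝ) + b1 + 4) + dl (i + 2) / ((i : ℝ) + b0 + 4) := by
      intro i
      rw [Finset.sum_range_succ', Finset.sum_range_succ']
      have q1 : prof a0 a1 (i + 1 + 1) = i + 3 := prof_two a0 a1 i
      rw [q1, prof_zero]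
      have q2 : prof b0 b1 (0 + 1) = b1 := rfl
      rw [q2]
      congr 1
      · congr 1
        · refine Finset.sum_congr rfl (fun j _ => ?_)
          have q3 : prof b0 b1 (j + 1 + 1) = j + 3 := prof_two b0 b1 j
          rw [q3]
          push_cast
          have q4 : i + 1 + 1 + (j + 1 + 1) = i + j + 4 := by ring
          rw [q4]
          congr 1
          ring
        · push_cast
          congr 1
          ring
      · push_cast
        congr 1
        ring
    have e2 : ∑ j ∈ range (K + 2),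
        dl (0 + 1 + j) / (((prof a0 a1 (0 + 1) + prof b0 b1 j : ℕ) : ℝ) + 1) =
        LL K 3 a1 + dl 2 / ((a1 : ℝ) + b1 + 1) + dl 1 / ((a1 : ℝ) + b0 + 1) := by
      rw [Finset.sum_range_succ', Finset.sum_range_succ']
      have q1 : prof a0 a1 (0 + 1) = a1 := rfl
      have q2 : prof b0 b1 (0 + 1) = b1 := rfl
      rw [q1, q2, prof_zero]
      congr 1
      · congr 1
        · unfold LL
          refine Finset.sum_congr rfl (fun j _ => ?_)
          have q3 : prof b0 b1 (j + 1 + 1) = j + 3 := prof_two b0 b1 j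
          rw [q3]
          push_cast
          have q4 : 0 + 1 + (j + 1 + 1) = j + 3 := by ring
          rw [q4]
          congr 1
          ring
        · push_cast
          congr 1
      · push_cast
        congr 1
    have e3 : ∑ j ∈ range (K + 2),
        dl (0 + j) / (((prof a0 a1 0 + prof b0 b1 j : ℕ) : ℝ) + 1) =
        LL K 2 a0 + dl 1 / ((a0 : ℝ) + b1 + 1) + dl 0 / ((a0 : ℝ) + b0 + 1) := by
      rw [Finset.sum_range_succ', Finset.sum_range_succ']
      have q2 : prof b0 b1 (0 + 1) = b1 := rfl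
      rw [q2, prof_zero, prof_zero]
      congr 1
      · congr 1
        · unfold LL
          refine Finset.sum_congr rfl (fun j _ => ?_)
          have q3 : prof b0 b1 (j + 1 + 1) = j + 3 := prof_two b0 b1 j
          rw [q3]
          push_cast
          have q4 : 0 + (j + 1 + 1) = j + 2 := by ring
          rw [q4]
          congr 1
          ring
        · push_cast
          congr 1
      · push_cast
        congr 1
    rw [Finset.sum_congr rfl (fun i _ => e1 i), e2, e3, Finset.sum_add_distrib,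
      Finset.sum_add_distrib]
    have e4 : ∑ i ∈ range K, dl (i + 3) / ((i : ℝ) + b1 + 4) = LL K 3 b1 := rfl
    have e5 : ∑ i ∈ range K, dl (i + 2) / ((i : ℝ) + b0 + 4) = LL K 2 b0 := rfl
    rw [e4, e5]
    ring
  unfold cc costF
  rw [h1, h1, h2]
  ring

lemma TT_prof (K : ℕ) : TT (K + 2) (K + 2) = cc (K + 2) (K + 2) (prof 1 2) (prof 1 2) := by
  have h : prof 1 2 = fun i => i + 1 := by
    ext i
    rcases i with _ | i
    · rfl
    · rcases i with _ | i
      · rfl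
      · exact prof_two 1 2 i
  rw [h]
  unfold TT cc costF
  congr 1
  refine Finset.sum_congr rfl (fun i _ => Finset.sum_congr rfl (fun j _ => ?_))
  push_cast
  congr 1
  ring

lemma dl_le (k : ℕ) : dl k ≤ 1 / (((k : ℝ) + 1) * ((k : ℝ) + 3)) := by
  unfold dl gl
  push_cast
  have h1 : (0 : ℝ) < (k : ℝ) + 1 := by positivity
  have h2 : (0 : ℝ) < (k : ℝ) + 2 := by positivity
  have h3 : (0 : ℝ) < (k : ℝ) + 3 := by positivity
  have e1 : (k : ℝ) + 1 + 1 = k + 2 := by ring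
  have e2 : (k : ℝ) + 2 + 1 = k + 3 := by ring
  rw [e1, e2]
  have h4 : Real.log (((k : ℝ) + 2) * (k + 2) / ((k + 1) * (k + 3))) =
      Real.log ((k : ℝ) + 2) - Real.log ((k : ℝ) + 1) - (Real.log ((k : ℝ) + 3) -
        Real.log ((k : ℝ) + 2)) := by
    rw [Real.log_div (by positivity) (by positivity), Real.log_mul h2.ne' h2.ne',
      Real.log_mul h1.ne' h3.ne']
    ring
  rw [← h4]
  refine (Real.log_le_sub_one_of_pos (by positivity)).trans (le_of_eq ?_)
  field_simp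
  ring

/-- tail majorant -/
lemma tail_le (s J K : ℕ) (hJ : J ≤ K) :
    ∑ j ∈ range K, dl (j + s) / (((j : ℝ) + s + 3) * ((j : ℝ) + s + 4)) ≤
    ∑ j ∈ range J, dl (j + s) / (((j : ℝ) + s + 3) * ((j : ℝ) + s + 4)) +
      1 / (3 * ((J : ℝ) + s + 1) * ((J : ℝ) + s + 2) * ((J : ℝ) + s + 3)) := by
  have h1 : ∑ j ∈ range K, dl (j + s) / (((j : ℝ) + s + 3) * ((j : ℝ) + s + 4)) +
      1 / (3 * ((K : ℝ) + s + 1) * ((K : ℝ) + s + 2) * ((K : ℝ) + s + 3)) ≤
    ∑ j ∈ range J, dl (j + s) / (((j : ℝ) + s + 3) * ((j : ℝ) + s + 4)) +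
      1 / (3 * ((J : ℝ) + s + 1) * ((J : ℝ) + s + 2) * ((J : ℝ) + s + 3)) := by
    induction hJ with
    | refl => exact le_refl _
    | @step M _ ih =>
      refine le_trans ?_ ih
      rw [Finset.sum_range_succ]
      have h2 := dl_le (M + s)
      push_cast at h2 ⊢
      set t : ℝ := (M : ℝ) + s with ht
      have ht0 : 0 ≤ t := by rw [ht]; positivity
      have h3 : dl (M + s) / ((t + 3) * (t + 4)) ≤
          1 / ((t + 1) * (t + 3)) / ((t + 3) * (t + 4)) :=
        div_le_div_of_nonneg_right h2 (by positivity)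
      have e1 : (M : ℝ) + 1 + s = t + 1 := by rw [ht]; ring
      rw [e1]
      have h4 : 1 / ((t + 1) * (t + 3)) / ((t + 3) * (t + 4)) ≤
          1 / ((t + 1) * (t + 2) * (t + 3) * (t + 4)) := by
        rw [div_div]
        apply one_div_le_one_div_of_le (by positivity)
        have : (t + 1) * (t + 3) * ((t + 3) * (t + 4)) - (t + 1) * (t + 2) * (t + 3) * (t + 4) =
            (t + 1) * (t + 3) * (t + 4) := by ring
        have h5 : 0 ≤ (t + 1) * (t + 3) * (t + 4) := by positivity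
        linarith
      have h5 : 1 / (3 * (t + 1) * (t + 2) * (t + 3)) =
          1 / ((t + 1) * (t + 2) * (t + 3) * (t + 4)) +
          1 / (3 * (t + 1 + 1) * (t + 1 + 2) * (t + 1 + 3)) := by
        field_simp
        ring
      rw [h5]
      linarith
  have h2 : (0 : ℝ) ≤ 1 / (3 * ((K : ℝ) + s + 1) * ((K : ℝ) + s + 2) * ((K : ℝ) + s + 3)) := by
    positivity
  linarith

lemma LL_diff (s K : ℕ) (c : ℝ) (hc : c + 1 = s) (hc0 : 0 ≤ c) : LL K s c - LL K s (c + 1) =
    ∑ j ∈ range K, dl (j + s) / (((j : ℝ) + s + 3) * ((j : ℝ) + s + 4)) := by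
  unfold LL
  rw [← Finset.sum_sub_distrib]
  refine Finset.sum_congr rfl (fun j _ => ?_)
  rw [← hc]
  have h1 : (j : ℝ) + c + 4 ≠ 0 := by positivity
  have h2 : (j : ℝ) + (c + 1) + 4 ≠ 0 := by positivity
  have h3 : (j : ℝ) + (c + 1) + 3 ≠ 0 := by positivity
  field_simp
  ring

lemma LL_two (K : ℕ) (hK : 8 ≤ K) : LL K 2 1 - LL K 2 2 ≤
    dl 2 / 30 + dl 3 / 42 + dl 4 / 56 + dl 5 / 72 + dl 6 / 90 + dl 7 / 110 + 1 / 2970 := by
  have h1 := LL_diff 2 K 1 (by norm_num) (by norm_num)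
  have h2 := tail_le 2 6 K (by omega)
  rw [← h1] at h2
  norm_num [Finset.sum_range_succ] at h2
  norm_num
  linarith

lemma LL_three (K : ℕ) (hK : 8 ≤ K) : LL K 3 2 - LL K 3 3 ≤
    dl 3 / 42 + dl 4 / 56 + dl 5 / 72 + dl 6 / 90 + dl 7 / 110 + 1 / 2970 := by
  have h1 := LL_diff 3 K 2 (by norm_num) (by norm_num)
  have h2 := tail_le 3 5 K (by omega)
  rw [← h1] at h2
  norm_num [Finset.sum_range_succ] at h2
  norm_num
  linarith

end Pool.Agent.StabM
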