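import Pool.Agent.StabM.Num2

set_option autoImplicit false

open Finset

namespace Pool.Agent.StabM

lemma gl1_le : gl 1 ≤ 0.6931472 := by
  rw [gl_eq (le_refl 1)]
  have := Real.log_two_lt_d9
  norm_num at this ⊢
  linarith

lemma gl1_ge : 0.6931471 ≤ gl 1 := by
  rw [gl_eq (le_refl 1)]
  have := Real.log_two_gt_d9
  norm_num at this ⊢
  linarith

lemma gl2_le : gl 2 ≤ 4054667 / 10000000 := by
  have h := gl_le (k := 2) (by norm_num) (1 / 5) (by norm_num)
  norm_num at h ⊢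
  linarith

lemma gl2_ge : 4054649 / 10000000 ≤ gl 2 := by
  rw [gl_eq (by norm_num)]
  have h := log_ge (a := ((2 : ℕ) : ℝ)) (by norm_num) (1 / 5) (by norm_num)
  refine le_trans ?_ h
  norm_num

lemma gl3_le : gl 3 ≤ 2876823 / 10000000 := by
  have h := gl_le (k := 3) (by norm_num) (1 / 7) (by norm_num)
  norm_num at h ⊢
  linarith

lemma gl3_ge : 2876820 / 10000000 ≤ gl 3 := by
  rw [gl_eq (by norm_num)]
  have h := log_ge (a := ((3 : ℕ) : ℝ)) (by norm_num) (1 / 7) (by norm_num)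
  refine le_trans ?_ h
  norm_num

lemma gl4_le : gl 4 ≤ 2231436 / 10000000 := by
  have h := gl_le (k := 4) (by norm_num) (1 / 9) (by norm_num)
  norm_num at h ⊢
  linarith

lemma gl4_ge : 2231435 / 10000000 ≤ gl 4 := by
  rw [gl_eq (by norm_num)]
  have h := log_ge (a := ((4 : ℕ) : ℝ)) (by norm_num) (1 / 9) (by norm_num)
  refine le_trans ?_ h
  norm_num

lemma gl5_le : gl 5 ≤ 1823216 / 10000000 := by
  have h := gl_le (k := 5) (by norm_num) (1 / 11) (by norm_num)
  norm_num at h ⊢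
  linarith

lemma gl5_ge : 1823215 / 10000000 ≤ gl 5 := by
  rw [gl_eq (by norm_num)]
  have h := log_ge (a := ((5 : ℕ) : ℝ)) (by norm_num) (1 / 11) (by norm_num)
  refine le_trans ?_ h
  norm_num

lemma gl6_le : gl 6 ≤ 1541507 / 10000000 := by
  have h := gl_le (k := 6) (by norm_num) (1 / 13) (by norm_num)
  norm_num at h ⊢
  linarith

lemma gl6_ge : 1541506 / 10000000 ≤ gl 6 := by
  rw [gl_eq (by norm_num)]
  have h := log_ge (a := ((6 : ℕ) : ℝ)) (by norm_num) (1 / 13) (by norm_num)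
  refine le_trans ?_ h
  norm_num

lemma gl7_le : gl 7 ≤ 1335314 / 10000000 := by
  have h := gl_le (k := 7) (by norm_num) (1 / 15) (by norm_num)
  norm_num at h ⊢
  linarith

lemma gl7_ge : 1335313 / 10000000 ≤ gl 7 := by
  rw [gl_eq (by norm_num)]
  have h := log_ge (a := ((7 : ℕ) : ℝ)) (by norm_num) (1 / 15) (by norm_num)
  refine le_trans ?_ h
  norm_num

lemma gl8_le : gl 8 ≤ 1177831 / 10000000 := by
  have h := gl_le (k := 8) (by norm_num) (1 / 17) (by norm_num)
  norm_num at h ⊢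
  linarith

lemma gl8_ge : 1177830 / 10000000 ≤ gl 8 := by
  rw [gl_eq (by norm_num)]
  have h := log_ge (a := ((8 : ℕ) : ℝ)) (by norm_num) (1 / 17) (by norm_num)
  refine le_trans ?_ h
  norm_num

lemma gl9_le : gl 9 ≤ 1053606 / 10000000 := by
  have h := gl_le (k := 9) (by norm_num) (1 / 19) (by norm_num)
  norm_num at h ⊢
  linarith

lemma gl9_ge : 1053605 / 10000000 ≤ gl 9 := by
  rw [gl_eq (by norm_num)]
  have h := log_ge (a := ((9 : ℕ) : ℝ)) (by norm_num) (1 / 19) (by norm_num)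
  refine le_trans ?_ h
  norm_num

lemma gl10_le : gl 10 ≤ 953102 / 10000000 := by
  have h := gl_le (k := 10) (by norm_num) (1 / 21) (by norm_num)
  norm_num at h ⊢
  linarith

lemma gl10_ge : 953101 / 10000000 ≤ gl 10 := by
  rw [gl_eq (by norm_num)]
  have h := log_ge (a := ((10 : ℕ) : ℝ)) (by norm_num) (1 / 21) (by norm_num)
  refine le_trans ?_ h
  norm_num

lemma log306_ge : 1118414 / 1000000 ≤ Real.log (306 / 100) := by
  have h2 := Real.log_two_gt_d9
  have h3 := log_ge (a := 100 / 53) (by norm_num) (53 / 253) (by norm_num)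
  have e : (306 : ℝ) / 100 = 2 * (1 + (100 / 53)⁻¹) := by norm_num
  rw [e, Real.log_mul (by norm_num) (by norm_num)]
  norm_num at h3 ⊢
  linarith

lemma TT_diag_le (K : ℕ) (hK : 10 ≤ K) : TT K K ≤
    2 * gl 1 / 3 + 2 * gl 2 / 4 + 2 * gl 3 / 5 + 2 * gl 4 / 6 + 2 * gl 5 / 7 + 2 * gl 6 / 8 +
    2 * gl 7 / 9 + 2 * gl 8 / 10 + 2 * gl 9 / 11 + 2 * gl 10 / 12 + (1 / 22 + 1 / 8) := by
  have h2 := TT_le_VV K
  have h3 := VV_le 10 K hK
  unfold tau at h3
  norm_num [Finset.sum_range_succ] at h3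
  norm_num
  linarith

lemma num_AA (K : ℕ) (hK : 8 ≤ K) : cc (K + 2) (K + 2) (prof 1 2) (prof 1 2) ≤
    Real.log (306 / 100) + 11 / 125 := by
  have h0 := TT_diag_le (K + 2) (by omega)
  rw [TT_prof, cc_prof] at h0
  rw [cc_prof]
  have h1 := LL_two K hK
  have h2 := LL_three K hK
  have g1 := gl1_le
  have g1' := gl1_ge
  have g2 := gl2_le
  have g2' := gl2_ge
  have g3 := gl3_le
  have g3' := gl3_ge
  have g4 := gl4_le
  have g4' := gl4_ge
  have g5 := gl5_le
  have g5' := gl5_ge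
  have g6 := gl6_le
  have g6' := gl6_ge
  have g7 := gl7_le
  have g7' := gl7_ge
  have g8 := gl8_le
  have g8' := gl8_ge
  have g9 := gl9_le
  have g9' := gl9_ge
  have g10 := gl10_le
  have g10' := gl10_ge
  have hl := log306_ge
  unfold dl at h0 h1 h2 ⊢
  norm_num at h0 h1 h2 g1 g1' ⊢
  linarith

lemma num_AB (K : ℕ) (hK : 8 ≤ K) : cc (K + 2) (K + 2) (prof 1 2) (prof 2 3) ≤
    Real.log (306 / 100) - 191 / 10000 := by
  have h0 := TT_diag_le (K + 2) (by omega)
  rw [TT_prof, cc_prof] at h0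
  rw [cc_prof]
  have h1 := LL_two K hK
  have h2 := LL_three K hK
  have g1 := gl1_le
  have g1' := gl1_ge
  have g2 := gl2_le
  have g2' := gl2_ge
  have g3 := gl3_le
  have g3' := gl3_ge
  have g4 := gl4_le
  have g4' := gl4_ge
  have g5 := gl5_le
  have g5' := gl5_ge
  have g6 := gl6_le
  have g6' := gl6_ge
  have g7 := gl7_le
  have g7' := gl7_ge
  have g8 := gl8_le
  have g8' := gl8_ge
  have g9 := gl9_le
  have g9' := gl9_ge
  have g10 := gl10_le
  have g10' := gl10_ge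
  have hl := log306_ge
  unfold dl at h0 h1 h2 ⊢
  norm_num at h0 h1 h2 g1 g1' ⊢
  linarith

lemma num_AC (K : ℕ) (hK : 8 ≤ K) : cc (K + 2) (K + 2) (prof 1 2) (prof 1 3) ≤
    Real.log (306 / 100) + 631 / 10000 := by
  have h0 := TT_diag_le (K + 2) (by omega)
  rw [TT_prof, cc_prof] at h0
  rw [cc_prof]
  have h1 := LL_two K hK
  have h2 := LL_three K hK
  have g1 := gl1_le
  have g1' := gl1_ge
  have g2 := gl2_le
  have g2' := gl2_ge
  have g3 := gl3_le
  have g3' := gl3_ge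
  have g4 := gl4_le
  have g4' := gl4_ge
  have g5 := gl5_le
  have g5' := gl5_ge
  have g6 := gl6_le
  have g6' := gl6_ge
  have g7 := gl7_le
  have g7' := gl7_ge
  have g8 := gl8_le
  have g8' := gl8_ge
  have g9 := gl9_le
  have g9' := gl9_ge
  have g10 := gl10_le
  have g10' := gl10_ge
  have hl := log306_ge
  unfold dl at h0 h1 h2 ⊢
  norm_num at h0 h1 h2 g1 g1' ⊢
  linarith

lemma num_AT (K : ℕ) (hK : 8 ≤ K) : cc (K + 2) (K + 2) (prof 1 2) (prof 2 2) ≤
    Real.log (306 / 100) + 249 / 10000 := by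
  have h0 := TT_diag_le (K + 2) (by omega)
  rw [TT_prof, cc_prof] at h0
  rw [cc_prof]
  have h1 := LL_two K hK
  have h2 := LL_three K hK
  have g1 := gl1_le
  have g1' := gl1_ge
  have g2 := gl2_le
  have g2' := gl2_ge
  have g3 := gl3_le
  have g3' := gl3_ge
  have g4 := gl4_le
  have g4' := gl4_ge
  have g5 := gl5_le
  have g5' := gl5_ge
  have g6 := gl6_le
  have g6' := gl6_ge
  have g7 := gl7_le
  have g7' := gl7_ge
  have g8 := gl8_le
  have g8' := gl8_ge
  have g9 := gl9_le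
  have g9' := gl9_ge
  have g10 := gl10_le
  have g10' := gl10_ge
  have hl := log306_ge
  unfold dl at h0 h1 h2 ⊢
  norm_num at h0 h1 h2 g1 g1' ⊢
  linarith

lemma num_BB (K : ℕ) (hK : 8 ≤ K) : cc (K + 2) (K + 2) (prof 2 3) (prof 2 3) ≤
    Real.log (306 / 100) - 11 / 125 := by
  have h0 := TT_diag_le (K + 2) (by omega)
  rw [TT_prof, cc_prof] at h0
  rw [cc_prof]
  have h1 := LL_two K hK
  have h2 := LL_three K hK
  have g1 := gl1_le
  have g1' := gl1_ge
  have g2 := gl2_le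
  have g2' := gl2_ge
  have g3 := gl3_le
  have g3' := gl3_ge
  have g4 := gl4_le
  have g4' := gl4_ge
  have g5 := gl5_le
  have g5' := gl5_ge
  have g6 := gl6_le
  have g6' := gl6_ge
  have g7 := gl7_le
  have g7' := gl7_ge
  have g8 := gl8_le
  have g8' := gl8_ge
  have g9 := gl9_le
  have g9' := gl9_ge
  have g10 := gl10_le
  have g10' := gl10_ge
  have hl := log306_ge
  unfold dl at h0 h1 h2 ⊢
  norm_num at h0 h1 h2 g1 g1' ⊢
  linarith

lemma num_BC (K : ℕ) (hK : 8 ≤ K) : cc (K + 2) (K + 2) (prof 2 3) (prof 1 3) ≤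
    Real.log (306 / 100) - 11 / 250 := by
  have h0 := TT_diag_le (K + 2) (by omega)
  rw [TT_prof, cc_prof] at h0
  rw [cc_prof]
  have h1 := LL_two K hK
  have h2 := LL_three K hK
  have g1 := gl1_le
  have g1' := gl1_ge
  have g2 := gl2_le
  have g2' := gl2_ge
  have g3 := gl3_le
  have g3' := gl3_ge
  have g4 := gl4_le
  have g4' := gl4_ge
  have g5 := gl5_le
  have g5' := gl5_ge
  have g6 := gl6_le
  have g6' := gl6_ge
  have g7 := gl7_le
  have g7' := gl7_ge
  have g8 := gl8_le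
  have g8' := gl8_ge
  have g9 := gl9_le
  have g9' := gl9_ge
  have g10 := gl10_le
  have g10' := gl10_ge
  have hl := log306_ge
  unfold dl at h0 h1 h2 ⊢
  norm_num at h0 h1 h2 g1 g1' ⊢
  linarith

lemma num_BT (K : ℕ) (hK : 8 ≤ K) : cc (K + 2) (K + 2) (prof 2 3) (prof 2 2) ≤
    Real.log (306 / 100) - 11 / 250 := by
  have h0 := TT_diag_le (K + 2) (by omega)
  rw [TT_prof, cc_prof] at h0
  rw [cc_prof]
  have h1 := LL_two K hK
  have h2 := LL_three K hK
  have g1 := gl1_le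
  have g1' := gl1_ge
  have g2 := gl2_le
  have g2' := gl2_ge
  have g3 := gl3_le
  have g3' := gl3_ge
  have g4 := gl4_le
  have g4' := gl4_ge
  have g5 := gl5_le
  have g5' := gl5_ge
  have g6 := gl6_le
  have g6' := gl6_ge
  have g7 := gl7_le
  have g7' := gl7_ge
  have g8 := gl8_le
  have g8' := gl8_ge
  have g9 := gl9_le
  have g9' := gl9_ge
  have g10 := gl10_le
  have g10' := gl10_ge
  have hl := log306_ge
  unfold dl at h0 h1 h2 ⊢
  norm_num at h0 h1 h2 g1 g1' ⊢
  linarith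

lemma num_CC (K : ℕ) (hK : 8 ≤ K) : cc (K + 2) (K + 2) (prof 1 3) (prof 1 3) ≤
    Real.log (306 / 100) + 191 / 5000 := by
  have h0 := TT_diag_le (K + 2) (by omega)
  rw [TT_prof, cc_prof] at h0
  rw [cc_prof]
  have h1 := LL_two K hK
  have h2 := LL_three K hK
  have g1 := gl1_le
  have g1' := gl1_ge
  have g2 := gl2_le
  have g2' := gl2_ge
  have g3 := gl3_le
  have g3' := gl3_ge
  have g4 := gl4_le
  have g4' := gl4_ge
  have g5 := gl5_le
  have g5' := gl5_ge
  have g6 := gl6_le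
  have g6' := gl6_ge
  have g7 := gl7_le
  have g7' := gl7_ge
  have g8 := gl8_le
  have g8' := gl8_ge
  have g9 := gl9_le
  have g9' := gl9_ge
  have g10 := gl10_le
  have g10' := gl10_ge
  have hl := log306_ge
  unfold dl at h0 h1 h2 ⊢
  norm_num at h0 h1 h2 g1 g1' ⊢
  linarith

lemma num_CT (K : ℕ) (hK : 8 ≤ K) : cc (K + 2) (K + 2) (prof 1 3) (prof 2 2) ≤
    Real.log (306 / 100) + 0 / 1 := by
  have h0 := TT_diag_le (K + 2) (by omega)
  rw [TT_prof, cc_prof] at h0
  rw [cc_prof]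
  have h1 := LL_two K hK
  have h2 := LL_three K hK
  have g1 := gl1_le
  have g1' := gl1_ge
  have g2 := gl2_le
  have g2' := gl2_ge
  have g3 := gl3_le
  have g3' := gl3_ge
  have g4 := gl4_le
  have g4' := gl4_ge
  have g5 := gl5_le
  have g5' := gl5_ge
  have g6 := gl6_le
  have g6' := gl6_ge
  have g7 := gl7_le
  have g7' := gl7_ge
  have g8 := gl8_le
  have g8' := gl8_ge
  have g9 := gl9_le
  have g9' := gl9_ge
  have g10 := gl10_le
  have g10' := gl10_ge
  have hl := log306_ge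
  unfold dl at h0 h1 h2 ⊢
  norm_num at h0 h1 h2 g1 g1' ⊢
  linarith

lemma num_TT (K : ℕ) (hK : 8 ≤ K) : cc (K + 2) (K + 2) (prof 2 2) (prof 2 2) ≤
    Real.log (306 / 100) + 0 / 1 := by
  have h0 := TT_diag_le (K + 2) (by omega)
  rw [TT_prof, cc_prof] at h0
  rw [cc_prof]
  have h1 := LL_two K hK
  have h2 := LL_three K hK
  have g1 := gl1_le
  have g1' := gl1_ge
  have g2 := gl2_le
  have g2' := gl2_ge
  have g3 := gl3_le
  have g3' := gl3_ge
  have g4 := gl4_le
  have g4' := gl4_ge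
  have g5 := gl5_le
  have g5' := gl5_ge
  have g6 := gl6_le
  have g6' := gl6_ge
  have g7 := gl7_le
  have g7' := gl7_ge
  have g8 := gl8_le
  have g8' := gl8_ge
  have g9 := gl9_le
  have g9' := gl9_ge
  have g10 := gl10_le
  have g10' := gl10_ge
  have hl := log306_ge
  unfold dl at h0 h1 h2 ⊢
  norm_num at h0 h1 h2 g1 g1' ⊢
  linarith

end Pool.Agent.StabM
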