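import Mathlib

set_option autoImplicit false

open Finset

namespace Pool.Agent.StabM

/-- rank functions for which `m` comes before every element of `A` -/
def first {n : ℕ} (m : Fin n) (A : Finset (Fin n)) : Finset (Equiv.Perm (Fin n)) :=
  Finset.univ.filter (fun π => ∀ x ∈ A, π m < π x)

lemma mem_first {n : ℕ} (m : Fin n) (A : Finset (Fin n)) (π : Equiv.Perm (Fin n)) :
    π ∈ first m A ↔ ∀ x ∈ A, π m < π x := by
  simp [first]

/-- among the ranks of a set each element is equally likely to be the least -/
theorem card_first {n : ℕ} (m : Fin n) (A : Finset (Fin n)) (hm : m ∉ A) :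
    (first m A).card * (A.card + 1) = Nat.factorial n := by
  classical
  set B := insert m A with hB
  have hBc : B.card = A.card + 1 := Finset.card_insert_of_notMem hm
  let E : Fin n → Finset (Equiv.Perm (Fin n)) := fun x => first x (B.erase x)
  have hEm : E m = first m A := by
    simp only [E, hB, Finset.erase_insert hm]
  have hcov : (Finset.univ : Finset (Equiv.Perm (Fin n))) = B.biUnion E := by
    symm
    rw [Finset.eq_univ_iff_forall]
    intro π
    have hne : B.Nonempty := ⟨m, Finset.mem_insert_self _ _⟩
    obtain ⟨x, hx, hmin⟩ := Finset.exists_min_image B (fun x => π x) hne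
    rw [Finset.mem_biUnion]
    refine ⟨x, hx, ?_⟩
    simp only [E, mem_first, Finset.mem_erase]
    rintro y ⟨hy, hyB⟩
    refine lt_of_le_of_ne (hmin y hyB) ?_
    intro h
    exact hy (π.injective h).symm
  have hdis : ∀ x ∈ B, ∀ y ∈ B, x ≠ y → Disjoint (E x) (E y) := by
    intro x hx y hy hxy
    rw [Finset.disjoint_left]
    intro π h1 h2
    simp only [E, mem_first, Finset.mem_erase] at h1 h2
    have a := h1 y ⟨hxy.symm, hy⟩
    have b := h2 x ⟨hxy, hx⟩
    exact absurd a (not_lt.mpr b.le)
  have hcard : ∀ x ∈ B, (E x).card = (E m).card := by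
    intro x hx
    refine Finset.card_bij (fun π _ => (Equiv.swap x m).trans π) ?_ ?_ ?_
    · intro π hπ
      simp only [E, mem_first, Finset.mem_erase] at hπ ⊢
      rintro y ⟨hy, hyB⟩
      simp only [Equiv.trans_apply, Equiv.swap_apply_right]
      by_cases hyx : y = x
      · subst hyx
        rw [Equiv.swap_apply_left]
        exact hπ m ⟨fun h => hy h.symm, Finset.mem_insert_self _ _⟩
      · rw [Equiv.swap_apply_of_ne_of_ne hyx hy]
        exact hπ y ⟨hyx, hyB⟩
    · intro π _ π' _ h
      ext z
      have := congrArg (fun e => e ((Equiv.swap x m) z)) h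
      have h2 : π z = π' z := by simpa using this
      rw [h2]
    · intro π hπ
      refine ⟨(Equiv.swap x m).trans π, ?_, ?_⟩
      · simp only [E, mem_first, Finset.mem_erase] at hπ ⊢
        rintro y ⟨hy, hyB⟩
        simp only [Equiv.trans_apply, Equiv.swap_apply_left]
        by_cases hym : y = m
        · subst hym
          rw [Equiv.swap_apply_right]
          exact hπ x ⟨fun h => hy h.symm, hx⟩
        · rw [Equiv.swap_apply_of_ne_of_ne hy hym]
          exact hπ y ⟨hym, hyB⟩
      · ext z
        simp
  have htot : Nat.factorial n = ∑ x ∈ B, (E x).card := by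
    rw [← Finset.card_biUnion hdis, ← hcov, Finset.card_univ, Fintype.card_perm, Fintype.card_fin]
  rw [htot, Finset.sum_congr rfl hcard, Finset.sum_const, smul_eq_mul, hBc, hEm, mul_comm]

theorem card_first_real {n : ℕ} (m : Fin n) (A : Finset (Fin n)) (hm : m ∉ A) :
    ((first m A).card : ℝ) = (Nat.factorial n : ℝ) * (1 / ((A.card : ℝ) + 1)) := by
  have h := card_first m A hm
  have h2 : ((first m A).card : ℝ) * ((A.card : ℝ) + 1) = (Nat.factorial n : ℝ) := by
    exact_mod_cast h
  have h3 : ((A.card : ℝ) + 1) ≠ 0 := by positivity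
  field_simp
  linarith

end Pool.Agent.StabM
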