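import Pool.Agent.StabM.Lat
import Pool.Agent.StabM.Stable

set_option autoImplicit false

open Finset

namespace Pool.Agent.StabM

variable {n : ℕ} {mp wp : Fin n → Equiv.Perm (Fin n)}

/-- ranks of the men -/
def rk (mp : Fin n → Equiv.Perm (Fin n)) : Fin n → Fin n → ℤ := fun m w => ((mp m w : ℕ) : ℤ)

lemma rk_lt (m a b : Fin n) : rk mp m a < rk mp m b ↔ mp m a < mp m b := by
  unfold rk
  rw [Int.ofNat_lt, Fin.lt_def]

lemma rk_inj (m : Fin n) : Function.Injective (rk mp m) := by
  intro a b h
  unfold rk at h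
  exact (mp m).injective (Fin.ext (by exact_mod_cast h))

/-- every man takes the worse partner -/
lemma exists_max {σ τ : Equiv.Perm (Fin n)} (hσ : Stable mp wp σ) (hτ : Stable mp wp τ) :
    ∃ κ : Equiv.Perm (Fin n), Stable mp wp κ ∧
      ∀ m, κ m = if mp m (σ m) < mp m (τ m) then τ m else σ m := by
  classical
  set f : Fin n → Fin n := fun m => if mp m (σ m) < mp m (τ m) then τ m else σ m with hf
  have hinj : Function.Injective f := by
    have key : ∀ a b : Fin n, mp a (σ a) < mp a (τ a) → ¬ (mp b (σ b) < mp b (τ b)) →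
        τ a = σ b → False := by
      intro a b ha hb hab
      have h1 := back_mem hσ hτ ha
      rw [hab, Equiv.symm_apply_apply] at h1
      exact hb h1
    intro a b hab
    simp only [hf] at hab
    by_cases ha : mp a (σ a) < mp a (τ a)
    · by_cases hb : mp b (σ b) < mp b (τ b)
      · rw [if_pos ha, if_pos hb] at hab
        exact τ.injective hab
      · rw [if_pos ha, if_neg hb] at hab
        exact absurd (key a b ha hb hab) id
    · by_cases hb : mp b (σ b) < mp b (τ b)
      · rw [if_neg ha, if_pos hb] at hab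
        exact absurd (key b a hb ha hab.symm) id
      · rw [if_neg ha, if_neg hb] at hab
        exact σ.injective hab
  set κ : Equiv.Perm (Fin n) := Equiv.ofBijective f (Finite.injective_iff_bijective.mp hinj)
    with hκ
  have hkf : ∀ m, κ m = if mp m (σ m) < mp m (τ m) then τ m else σ m := fun m => rfl
  refine ⟨κ, ?_, hkf⟩
  rintro m w ⟨h1, h2⟩
  have hx := Equiv.apply_symm_apply κ w
  set x := κ.symm w with hxdef
  by_cases hm : mp m (σ m) < mp m (τ m)
  · rw [hkf m, if_pos hm] at h1
    have h3 := hτ.woman h1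
    have h4 : wp w x ≤ wp w (τ.symm w) := by
      by_cases hxp : mp x (σ x) < mp x (τ x)
      · rw [hkf x, if_pos hxp] at hx
        rw [← hx, Equiv.symm_apply_apply]
      · rw [hkf x, if_neg hxp] at hx
        rw [not_lt] at hxp
        rcases lt_or_eq_of_le hxp with h5 | h5
        · have h6 := woman_of_pref hτ hσ h5
          rw [hx] at h6
          exact h6.le
        · have h6 : τ x = σ x := (mp x).injective h5
          rw [← hx, ← h6, Equiv.symm_apply_apply]
    exact absurd (lt_of_lt_of_le h2 h4) (not_lt.mpr h3.le)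
  · rw [hkf m, if_neg hm] at h1
    have h3 := hσ.woman h1
    have h4 : wp w x ≤ wp w (σ.symm w) := by
      by_cases hxp : mp x (σ x) < mp x (τ x)
      · have h6 := woman_of_pref hσ hτ hxp
        rw [hkf x, if_pos hxp] at hx
        rw [hx] at h6
        exact h6.le
      · rw [hkf x, if_neg hxp] at hx
        rw [← hx, Equiv.symm_apply_apply]
    exact absurd (lt_of_lt_of_le h2 h4) (not_lt.mpr h3.le)

/-- every man takes the better partner -/
lemma exists_min {σ τ : Equiv.Perm (Fin n)} (hσ : Stable mp wp σ) (hτ : Stable mp wp τ) :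
    ∃ κ : Equiv.Perm (Fin n), Stable mp wp κ ∧
      ∀ m, κ m = if mp m (σ m) < mp m (τ m) then σ m else τ m := by
  classical
  set f : Fin n → Fin n := fun m => if mp m (σ m) < mp m (τ m) then σ m else τ m with hf
  have hinj : Function.Injective f := by
    have key : ∀ a b : Fin n, mp a (σ a) < mp a (τ a) → ¬ (mp b (σ b) < mp b (τ b)) →
        σ a = τ b → False := by
      intro a b ha hb hab
      have h1 := step_mem hσ hτ ha
      rw [hab, Equiv.symm_apply_apply] at h1
      exact hb h1
    intro a b hab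
    simp only [hf] at hab
    by_cases ha : mp a (σ a) < mp a (τ a)
    · by_cases hb : mp b (σ b) < mp b (τ b)
      · rw [if_pos ha, if_pos hb] at hab
        exact σ.injective hab
      · rw [if_pos ha, if_neg hb] at hab
        exact absurd (key a b ha hb hab) id
    · by_cases hb : mp b (σ b) < mp b (τ b)
      · rw [if_neg ha, if_pos hb] at hab
        exact absurd (key b a hb ha hab.symm) id
      · rw [if_neg ha, if_neg hb] at hab
        exact τ.injective hab
  set κ : Equiv.Perm (Fin n) := Equiv.ofBijective f (Finite.injective_iff_bijective.mp hinj)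
    with hκ
  have hkf : ∀ m, κ m = if mp m (σ m) < mp m (τ m) then σ m else τ m := fun m => rfl
  refine ⟨κ, ?_, hkf⟩
  rintro m w ⟨h1, h2⟩
  have hx := Equiv.apply_symm_apply κ w
  set x := κ.symm w with hxdef
  have hboth : mp m w < mp m (σ m) ∧ mp m w < mp m (τ m) := by
    by_cases hm : mp m (σ m) < mp m (τ m)
    · rw [hkf m, if_pos hm] at h1
      exact ⟨h1, h1.trans hm⟩
    · rw [hkf m, if_neg hm] at h1
      rw [not_lt] at hm
      exact ⟨lt_of_lt_of_le h1 hm, h1⟩
  have h3 := hσ.woman hboth.1
  have h4 := hτ.woman hboth.2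
  by_cases hxp : mp x (σ x) < mp x (τ x)
  · rw [hkf x, if_pos hxp] at hx
    rw [← hx, Equiv.symm_apply_apply] at h3
    rw [hx] at h3
    exact absurd h2 (not_lt.mpr h3.le)
  · rw [hkf x, if_neg hxp] at hx
    rw [← hx, Equiv.symm_apply_apply] at h4
    rw [hx] at h4
    exact absurd h2 (not_lt.mpr h4.le)

/-- the stable matchings -/
def stabS (mp wp : Fin n → Equiv.Perm (Fin n)) : Finset (Equiv.Perm (Fin n)) :=
  Finset.univ.filter (fun σ => Stable mp wp σ)

theorem good_stab (mp wp : Fin n → Equiv.Perm (Fin n)) : Good (stabS mp wp) (rk mp) := by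
  refine ⟨rk_inj, ?_, ?_⟩
  · intro σ hσ τ hτ
    rw [stabS, Finset.mem_filter] at hσ hτ
    obtain ⟨κ, h1, h2⟩ := exists_max hσ.2 hτ.2
    refine ⟨κ, ?_, ?_⟩
    · rw [stabS, Finset.mem_filter]; exact ⟨Finset.mem_univ _, h1⟩
    · intro m
      rw [h2 m]
      by_cases h : mp m (σ m) < mp m (τ m)
      · rw [if_pos h, max_eq_right]
        exact ((rk_lt m _ _).mpr h).le
      · rw [if_neg h, max_eq_left]
        exact not_lt.mp (fun h3 => h ((rk_lt m _ _).mp h3))
  · intro σ hσ τ hτ
    rw [stabS, Finset.mem_filter] at hσ hτ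
    obtain ⟨κ, h1, h2⟩ := exists_min hσ.2 hτ.2
    refine ⟨κ, ?_, ?_⟩
    · rw [stabS, Finset.mem_filter]; exact ⟨Finset.mem_univ _, h1⟩
    · intro m
      rw [h2 m]
      by_cases h : mp m (σ m) < mp m (τ m)
      · rw [if_pos h, min_eq_left]
        exact ((rk_lt m _ _).mpr h).le
      · rw [if_neg h, min_eq_right]
        exact not_lt.mp (fun h3 => h ((rk_lt m _ _).mp h3))

end Pool.Agent.StabM
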