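import Pool.Agent.StabM.Num3
import Pool.Agent.StabM.FlipB
import Pool.Agent.StabM.LatCnt
import Pool.Agent.StabM.StabLat

set_option autoImplicit false

open Finset

namespace Pool.Agent.StabM

variable {n : ℕ} {S : Finset (Equiv.Perm (Fin n))} {r : Fin n → Fin n → ℤ}
  {σ : Equiv.Perm (Fin n)} {m : Fin n}

open Classical in
/-- indicator -/
noncomputable def ind (P : Prop) : ℝ := if P then 1 else 0

lemma ind_true {P : Prop} (h : P) : ind P = 1 := by unfold ind; rw [if_pos h]
lemma ind_false {P : Prop} (h : ¬ P) : ind P = 0 := by unfold ind; rw [if_neg h]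

lemma prof_le {a0 a1 : ℕ} {u : ℕ → ℕ} {p : ℕ} (hu : ∀ i < p, i + 1 ≤ u i)
    (h0 : 0 < p → a0 ≤ u 0) (h1 : 1 < p → a1 ≤ u 1) : ∀ i < p, prof a0 a1 i ≤ u i := by
  intro i hi
  rcases i with _ | i
  · rw [prof_zero]; exact h0 hi
  · rcases i with _ | i
    · exact h1 hi
    · have h2 : prof a0 a1 (i + 1 + 1) = i + 3 := prof_two a0 a1 i
      rw [h2]
      exact hu _ hi

lemma cases4 (hg : Good S r) (hσ : σ ∈ S) (m : Fin n) :
    (TA S r σ m ∧ Exp S r σ m ∧ ¬ TB S r σ m ∧
      ∀ i < (low S r σ m).card, prof 1 2 i ≤ (Us S r σ m i).card) ∨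
    (¬ TA S r σ m ∧ Exp S r σ m ∧ ¬ TB S r σ m ∧
      ∀ i < (low S r σ m).card, prof 1 3 i ≤ (Us S r σ m i).card) ∨
    (¬ TA S r σ m ∧ ¬ Exp S r σ m ∧ TB S r σ m ∧
      ∀ i < (low S r σ m).card, prof 2 3 i ≤ (Us S r σ m i).card) ∨
    (¬ TA S r σ m ∧ ¬ Exp S r σ m ∧ ¬ TB S r σ m ∧
      ∀ i < (low S r σ m).card, prof 2 2 i ≤ (Us S r σ m i).card) := by
  have hge : ∀ i < (low S r σ m).card, i + 1 ≤ (Us S r σ m i).card :=
    fun i hi => card_Us_ge hg hσ hi
  by_cases hE : Exp S r σ m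
  · have hB : ¬ TB S r σ m := by
      intro h
      have h1 := hE.2
      have h2 := h.2.1
      omega
    by_cases hA : TA S r σ m
    · left
      exact ⟨hA, hE, hB, prof_le hge (fun h => hge 0 h) (fun h => hge 1 h)⟩
    · right; left
      refine ⟨hA, hE, hB, prof_le hge (fun h => hge 0 h) (fun h => ?_)⟩
      have h1 := hge 1 h
      have h2 : (Us S r σ m 1).card ≠ 2 := fun h3 => hA ⟨h, hE.2, h3⟩
      omega
  · have hA : ¬ TA S r σ m := fun h => hE ⟨lt_trans Nat.zero_lt_one h.1, h.2.1⟩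
    by_cases hB : TB S r σ m
    · right; right; left
      refine ⟨hA, hE, hB, prof_le hge (fun _ => hB.2.1.ge) hB.2.2⟩
    · right; right; right
      refine ⟨hA, hE, hB, prof_le hge (fun h => ?_) (fun h => hge 1 h)⟩
      have h1 := hge 0 h
      have h2 : (Us S r σ m 0).card ≠ 1 := fun h3 => hE ⟨h, h3⟩
      omega

/-- cost of a man in a member of the family -/
noncomputable def cst (S : Finset (Equiv.Perm (Fin n))) (r : Fin n → Fin n → ℤ)
    (σ : Equiv.Perm (Fin n)) (m : Fin n) : ℝ :=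
  costF (low S r σ m).card (low S (rev r) σ m).card
        (fun i => (Us S r σ m i).card) (fun j => (Us S (rev r) σ m j).card)
        (fun i j => (Us S r σ m i ∪ Us S (rev r) σ m j).card)

lemma cst_le_cc (a0 a1 b0 b1 : ℕ)
    (ha : ∀ i < (low S r σ m).card, prof a0 a1 i ≤ (Us S r σ m i).card)
    (hb : ∀ i < (low S (rev r) σ m).card, prof b0 b1 i ≤ (Us S (rev r) σ m i).card) :
    ∃ K, 8 ≤ K ∧ cst S r σ m ≤ cc (K + 2) (K + 2) (prof a0 a1) (prof b0 b1) := by
  refine ⟨(low S r σ m).card + (low S (rev r) σ m).card + 8, by omega, ?_⟩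
  unfold cst
  refine (costF_le_cc _ _ _ _ _ (fun i j => Finset.card_union_le _ _)).trans ?_
  exact cc_le (by omega) (by omega) _ _ _ _ ha hb

lemma cst_le (hg : Good S r) (hσ : σ ∈ S) (m : Fin n) : cst S r σ m ≤
    Real.log (306 / 100) + 191 / 10000 * (2 * ind (Exp S r σ m ∧ Exp S (rev r) σ m) -
      ind (TA S r σ m) - ind (TA S (rev r) σ m)) + 44 / 1000 * (ind (TA S r σ m) -
      ind (TB S r σ m) + ind (TA S (rev r) σ m) - ind (TB S (rev r) σ m)) := by
  rcases cases4 hg hσ m with ⟨hA, hE, hB, ha⟩ | ⟨hA, hE, hB, ha⟩ | ⟨hA, hE, hB, ha⟩ |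
    ⟨hA, hE, hB, ha⟩
  · rcases cases4 hg.rev hσ m with ⟨hA', hE', hB', hb⟩ | ⟨hA', hE', hB', hb⟩ |
      ⟨hA', hE', hB', hb⟩ | ⟨hA', hE', hB', hb⟩
    · obtain ⟨K, hK, h⟩ := cst_le_cc _ _ _ _ ha hb
      have _ := hK
      have h2 := num_AA K hK
      rw [ind_true (And.intro hE hE'), ind_true hA, ind_true hA', ind_false hB, ind_false hB']
      linarith
    · obtain ⟨K, hK, h⟩ := cst_le_cc _ _ _ _ ha hb
      have _ := hK
      have h2 := num_AC K hK
      rw [ind_true (And.intro hE hE'), ind_true hA, ind_false hA', ind_false hB, ind_false hB']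
      linarith
    · obtain ⟨K, hK, h⟩ := cst_le_cc _ _ _ _ ha hb
      have _ := hK
      have h2 := num_AB K hK
      rw [ind_false (fun h : Exp S r σ m ∧ Exp S (rev r) σ m => hE' h.2), ind_true hA, ind_false hA', ind_false hB, ind_true hB']
      linarith
    · obtain ⟨K, hK, h⟩ := cst_le_cc _ _ _ _ ha hb
      have _ := hK
      have h2 := num_AT K hK
      rw [ind_false (fun h : Exp S r σ m ∧ Exp S (rev r) σ m => hE' h.2), ind_true hA, ind_false hA', ind_false hB, ind_false hB']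
      linarith
  · rcases cases4 hg.rev hσ m with ⟨hA', hE', hB', hb⟩ | ⟨hA', hE', hB', hb⟩ |
      ⟨hA', hE', hB', hb⟩ | ⟨hA', hE', hB', hb⟩
    · obtain ⟨K, hK, h⟩ := cst_le_cc _ _ _ _ ha hb
      rw [cc_symm] at h
      have h2 := num_AC K hK
      rw [ind_true (And.intro hE hE'), ind_false hA, ind_true hA', ind_false hB, ind_false hB']
      linarith
    · obtain ⟨K, hK, h⟩ := cst_le_cc _ _ _ _ ha hb
      have _ := hK
      have h2 := num_CC K hK
      rw [ind_true (And.intro hE hE'), ind_false hA, ind_false hA', ind_false hB, ind_false hB']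
      linarith
    · obtain ⟨K, hK, h⟩ := cst_le_cc _ _ _ _ ha hb
      rw [cc_symm] at h
      have h2 := num_BC K hK
      rw [ind_false (fun h : Exp S r σ m ∧ Exp S (rev r) σ m => hE' h.2), ind_false hA, ind_false hA', ind_false hB, ind_true hB']
      linarith
    · obtain ⟨K, hK, h⟩ := cst_le_cc _ _ _ _ ha hb
      have _ := hK
      have h2 := num_CT K hK
      rw [ind_false (fun h : Exp S r σ m ∧ Exp S (rev r) σ m => hE' h.2), ind_false hA, ind_false hA', ind_false hB, ind_false hB']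
      linarith
  · rcases cases4 hg.rev hσ m with ⟨hA', hE', hB', hb⟩ | ⟨hA', hE', hB', hb⟩ |
      ⟨hA', hE', hB', hb⟩ | ⟨hA', hE', hB', hb⟩
    · obtain ⟨K, hK, h⟩ := cst_le_cc _ _ _ _ ha hb
      rw [cc_symm] at h
      have h2 := num_AB K hK
      rw [ind_false (fun h : Exp S r σ m ∧ Exp S (rev r) σ m => hE h.1), ind_false hA, ind_true hA', ind_true hB, ind_false hB']
      linarith
    · obtain ⟨K, hK, h⟩ := cst_le_cc _ _ _ _ ha hb
      have _ := hK
      have h2 := num_BC K hK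
      rw [ind_false (fun h : Exp S r σ m ∧ Exp S (rev r) σ m => hE h.1), ind_false hA, ind_false hA', ind_true hB, ind_false hB']
      linarith
    · obtain ⟨K, hK, h⟩ := cst_le_cc _ _ _ _ ha hb
      have _ := hK
      have h2 := num_BB K hK
      rw [ind_false (fun h : Exp S r σ m ∧ Exp S (rev r) σ m => hE h.1), ind_false hA, ind_false hA', ind_true hB, ind_true hB']
      linarith
    · obtain ⟨K, hK, h⟩ := cst_le_cc _ _ _ _ ha hb
      have _ := hK
      have h2 := num_BT K hK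
      rw [ind_false (fun h : Exp S r σ m ∧ Exp S (rev r) σ m => hE h.1), ind_false hA, ind_false hA', ind_true hB, ind_false hB']
      linarith
  · rcases cases4 hg.rev hσ m with ⟨hA', hE', hB', hb⟩ | ⟨hA', hE', hB', hb⟩ |
      ⟨hA', hE', hB', hb⟩ | ⟨hA', hE', hB', hb⟩
    · obtain ⟨K, hK, h⟩ := cst_le_cc _ _ _ _ ha hb
      rw [cc_symm] at h
      have h2 := num_AT K hK
      rw [ind_false (fun h : Exp S r σ m ∧ Exp S (rev r) σ m => hE h.1), ind_false hA, ind_true hA', ind_false hB, ind_false hB']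
      linarith
    · obtain ⟨K, hK, h⟩ := cst_le_cc _ _ _ _ ha hb
      rw [cc_symm] at h
      have h2 := num_CT K hK
      rw [ind_false (fun h : Exp S r σ m ∧ Exp S (rev r) σ m => hE h.1), ind_false hA, ind_false hA', ind_false hB, ind_false hB']
      linarith
    · obtain ⟨K, hK, h⟩ := cst_le_cc _ _ _ _ ha hb
      rw [cc_symm] at h
      have h2 := num_BT K hK
      rw [ind_false (fun h : Exp S r σ m ∧ Exp S (rev r) σ m => hE h.1), ind_false hA, ind_false hA', ind_false hB, ind_true hB']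
      linarith
    · obtain ⟨K, hK, h⟩ := cst_le_cc _ _ _ _ ha hb
      have _ := hK
      have h2 := num_TT K hK
      rw [ind_false (fun h : Exp S r σ m ∧ Exp S (rev r) σ m => hE h.1), ind_false hA, ind_false hA', ind_false hB, ind_false hB']
      linarith

lemma sum_ind (P : Fin n → Prop) [DecidablePred P] :
    ∑ m : Fin n, ind (P m) = ((Finset.univ.filter P).card : ℝ) := by
  rw [Finset.card_filter]
  push_cast
  refine Finset.sum_congr rfl (fun m _ => ?_)
  by_cases h : P m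
  · rw [ind_true h, if_pos h]
  · rw [ind_false h, if_neg h]

open Classical in
lemma sum_AB (hg : Good S r) : ∑ σ ∈ S, ∑ m : Fin n, ind (TA S r σ m) ≤
    ∑ σ ∈ S, ∑ m : Fin n, ind (TB S r σ m) := by
  refine Finset.sum_le_sum (fun σ hσ => ?_)
  rw [sum_ind, sum_ind]
  exact_mod_cast count_AB_row hg hσ

open Classical in
lemma sum_prod (P : Equiv.Perm (Fin n) × Fin n → Prop) :
    ∑ σ ∈ S, ∑ m : Fin n, ind (P (σ, m)) =
      (((S ×ˢ (Finset.univ : Finset (Fin n))).filter P).card : ℝ) := by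
  rw [Finset.card_filter, Finset.sum_product]
  push_cast
  refine Finset.sum_congr rfl (fun σ _ => Finset.sum_congr rfl (fun m _ => ?_))
  by_cases h : P (σ, m)
  · rw [ind_true h, if_pos h]
  · rw [ind_false h, if_neg h]

open Classical in
lemma sum_both (hg : Good S r) :
    ∑ σ ∈ S, ∑ m : Fin n, ind (Exp S r σ m ∧ Exp S (rev r) σ m) ≤
    ∑ σ ∈ S, ∑ m : Fin n, ind (TA S r σ m) := by
  have h1 := sum_prod (S := S) (fun x : Equiv.Perm (Fin n) × Fin n => Exp S r x.1 x.2 ∧
      Exp S (rev r) x.1 x.2)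
  have h2 := sum_prod (S := S) (fun x : Equiv.Perm (Fin n) × Fin n => TA S r x.1 x.2)
  simp only at h1 h2
  rw [h1, h2]
  apply Nat.cast_le.mpr
  convert count_both hg

theorem sum_cst_le (hg : Good S r) :
    ∑ σ ∈ S, ∑ m : Fin n, cst S r σ m ≤ (S.card : ℝ) * ((n : ℝ) * Real.log (306 / 100)) := by
  have h1 : ∑ σ ∈ S, ∑ m : Fin n, cst S r σ m ≤ ∑ σ ∈ S, ∑ m : Fin n, (Real.log (306 / 100) +
      191 / 10000 * (2 * ind (Exp S r σ m ∧ Exp S (rev r) σ m) -
      ind (TA S r σ m) - ind (TA S (rev r) σ m)) + 44 / 1000 * (ind (TA S r σ m) -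
      ind (TB S r σ m) + ind (TA S (rev r) σ m) - ind (TB S (rev r) σ m))) :=
    Finset.sum_le_sum (fun σ hσ => Finset.sum_le_sum (fun m _ => cst_le hg hσ m))
  refine h1.trans ?_
  have h2 := sum_both hg
  have h3 := sum_both hg.rev
  have h4 := sum_AB hg
  have h5 := sum_AB hg.rev
  rw [rev_rev] at h3
  have h6 : ∑ σ ∈ S, ∑ m : Fin n, ind (Exp S (rev r) σ m ∧ Exp S r σ m) =
      ∑ σ ∈ S, ∑ m : Fin n, ind (Exp S r σ m ∧ Exp S (rev r) σ m) := by
    refine Finset.sum_congr rfl (fun σ _ => Finset.sum_congr rfl (fun m _ => ?_))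
    rw [and_comm]
  rw [h6] at h3
  simp only [Finset.sum_add_distrib, Finset.sum_sub_distrib, ← Finset.mul_sum, mul_add, mul_sub]
  simp only [Finset.sum_const, Finset.card_univ, Fintype.card_fin, nsmul_eq_mul]
  linarith

theorem lattice_bound (hg : Good S r) : (S.card : ℝ) ≤ (306 / 100) ^ n := by
  have h := card_le_of_cost_lat S (Real.log (306 / 100)) (by
    have h1 : ∀ σ ∈ S, ∑ m : Fin n,
        ∑ π : Equiv.Perm (Fin n), Real.log (cntP π (famF S) σ m) ≤
        (Nat.factorial n : ℝ) * ∑ m : Fin n, cst S r σ m := by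
      intro σ hσ
      rw [Finset.mul_sum]
      exact Finset.sum_le_sum (fun m _ => sum_log_cntP_lat hg hσ m)
    refine (Finset.sum_le_sum h1).trans ?_
    rw [← Finset.mul_sum]
    exact mul_le_mul_of_nonneg_left (sum_cst_le hg) (by positivity))
  refine h.trans (le_of_eq ?_)
  rw [mul_comm, Real.exp_mul, Real.exp_log (by norm_num), Real.rpow_natCast]

theorem sharp_bound (mp wp : Fin n → Equiv.Perm (Fin n)) :
    ((stabS mp wp).card : ℝ) ≤ (306 / 100) ^ n := lattice_bound (good_stab mp wp)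

end Pool.Agent.StabM
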