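import Pool.Agent.StabM.Num

set_option autoImplicit false

open Finset

namespace Pool.Agent.StabM

variable {n : ℕ}

/-- averaging over all orders -/
theorem card_le_of_cost (mp wp : Fin n → Equiv.Perm (Fin n)) (C : ℝ)
    (hC : ∑ σ ∈ stab mp wp, ∑ m : Fin n,
      ∑ π : Equiv.Perm (Fin n), Real.log (cntP π (stabF mp wp) σ m) ≤
      (Nat.factorial n : ℝ) * (((stab mp wp).card : ℝ) * ((n : ℝ) * C))) :
    ((stab mp wp).card : ℝ) ≤ Real.exp ((n : ℝ) * C) := by
  rcases Finset.eq_empty_or_nonempty (stab mp wp) with h | h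
  · rw [h, Finset.card_empty, Nat.cast_zero]
    exact (Real.exp_pos _).le
  · have hF : (stabF mp wp).Nonempty := by
      unfold stabF
      exact h.image _
    have hc : (0 : ℝ) < (stab mp wp).card := by exact_mod_cast Finset.card_pos.mpr h
    have h1 : ∀ π : Equiv.Perm (Fin n), ((stab mp wp).card : ℝ) * Real.log (stab mp wp).card ≤
        ∑ σ ∈ stab mp wp, ∑ m : Fin n, Real.log (cntP π (stabF mp wp) σ m) := by
      intro π
      have h2 := log_card_le π (stabF mp wp) hF
      rw [card_stabF] at h2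
      refine h2.trans (le_of_eq ?_)
      conv_lhs => rw [stabF]
      rw [Finset.sum_image]
      · rfl
      · intro σ _ τ _ hst
        ext m
        have h3 : σ m = τ m := congrFun hst m
        rw [h3]
    have h4 := Finset.sum_le_sum (fun (π : Equiv.Perm (Fin n)) (_ : π ∈ Finset.univ) => h1 π)
    rw [Finset.sum_const, Finset.card_univ, Fintype.card_perm, Fintype.card_fin, nsmul_eq_mul,
      Finset.sum_comm] at h4
    have h5 : ∑ σ ∈ stab mp wp, ∑ π : Equiv.Perm (Fin n), ∑ m : Fin n,
        Real.log (cntP π (stabF mp wp) σ m) = ∑ σ ∈ stab mp wp, ∑ m : Fin n,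
        ∑ π : Equiv.Perm (Fin n), Real.log (cntP π (stabF mp wp) σ m) :=
      Finset.sum_congr rfl (fun σ _ => Finset.sum_comm)
    rw [h5] at h4
    have h6 := h4.trans hC
    have hn : (0 : ℝ) < (Nat.factorial n : ℝ) := by exact_mod_cast Nat.factorial_pos n
    have h7 := le_of_mul_le_mul_left h6 hn
    have h8 := le_of_mul_le_mul_left h7 hc
    rw [← Real.exp_log hc]
    exact Real.exp_le_exp.mpr h8

theorem simple_bound (mp wp : Fin n → Equiv.Perm (Fin n)) :
    ((stab mp wp).card : ℝ) ≤ (3333 / 1000) ^ n := by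
  have h := card_le_of_cost mp wp (Real.log (3333 / 1000)) (by
    have h1 : ∀ σ ∈ stab mp wp, ∑ m : Fin n,
        ∑ π : Equiv.Perm (Fin n), Real.log (cntP π (stabF mp wp) σ m) ≤
        (Nat.factorial n : ℝ) * ((n : ℝ) * Real.log (3333 / 1000)) := by
      intro σ hσ
      have h2 : ∀ m ∈ (Finset.univ : Finset (Fin n)),
          ∑ π : Equiv.Perm (Fin n), Real.log (cntP π (stabF mp wp) σ m) ≤
          (Nat.factorial n : ℝ) * Real.log (3333 / 1000) := by
        intro m _
        refine (sum_log_cntP ((mem_stab mp wp σ).mp hσ) m).trans ?_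
        exact mul_le_mul_of_nonneg_left (TT_le _ _) (by positivity)
      refine (Finset.sum_le_sum h2).trans (le_of_eq ?_)
      rw [Finset.sum_const, Finset.card_univ, Fintype.card_fin, nsmul_eq_mul]
      ring
    refine (Finset.sum_le_sum h1).trans (le_of_eq ?_)
    rw [Finset.sum_const, nsmul_eq_mul]
    ring)
  refine h.trans (le_of_eq ?_)
  rw [mul_comm, Real.exp_mul, Real.exp_log (by norm_num), Real.rpow_natCast]

end Pool.Agent.StabM
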